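import Mathlib
import Pool.Agent.Lib.H4DMKey
import Pool.Agent.H44DM.Parity

/-!
# The double shuffle Lie algebra is closed under the Ihara bracket

For `f` in `dm` the operator `S_f(u) = delT f u + [corr f, u] + u · f_*` of `ℚ⟨Y⟩` is a coderivation
for the stuffle coproduct.
-/

set_option autoImplicit false

open Polynomial
open scoped TensorProduct

namespace Pool.Agent.ECL

open Pool.Agent.H4DM Pool.Agent.H44DM

noncomputable section

/-! ### The anti-automorphism `y_n ↦ (-1)^n y_n` -/

/-- The anti-automorphism `y_n ↦ (-1)^n y_n` of `ℚ⟨Y⟩`. -/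
def revY : NC ℕ+ →ₗ[ℚ] NC ℕ+ := linw (fun t => ((-1 : ℚ) ^ (wt wY t)) • wd t.reverse)

theorem revY_wd (t : List ℕ+) : revY (wd t) = ((-1 : ℚ) ^ (wt wY t)) • wd t.reverse := by
  rw [revY, linw_wd]

theorem revY_mul (p q : NC ℕ+) : revY (p * q) = revY q * revY p := by
  induction p using nc_induction with
  | hw l =>
    induction q using nc_induction with
    | hw m =>
      rw [← wd_append, revY_wd, revY_wd, revY_wd, List.reverse_append, wd_append, wt_append,
        smul_mul_smul_comm, ← pow_add, add_comm]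
    | zero => simp
    | add a b ha hb => rw [mul_add, map_add, ha, hb, map_add, add_mul]
    | smul c a ha => rw [mul_smul_comm, map_smul, ha, map_smul, smul_mul_assoc]
  | zero => simp
  | add a b ha hb => rw [add_mul, map_add, ha, hb, map_add, mul_add]
  | smul c a ha => rw [smul_mul_assoc, map_smul, ha, map_smul, mul_smul_comm]

theorem cf_revY (p : NC ℕ+) (t : List ℕ+) :
    cf (revY p) t = (-1 : ℚ) ^ (wt wY t) * cf p t.reverse := by
  have hrev : ∀ s : List ℕ+, wt wY s.reverse = wt wY s := by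
    intro s; simp [wt]
  induction p using nc_induction with
  | hw m =>
    rw [revY_wd, cf_smul, cf_wd, cf_wd]
    by_cases h : m.reverse = t
    · subst h
      rw [if_pos rfl, List.reverse_reverse, if_pos rfl, hrev]
    · rw [if_neg h, if_neg]
      · simp
      · intro h2; apply h; rw [h2, List.reverse_reverse]
  | zero => simp
  | add a b ha hb => rw [map_add, cf_add, ha, hb, cf_add]; ring
  | smul c a ha => rw [map_smul, cf_smul, ha, cf_smul]; ring

theorem revY_one : revY 1 = 1 := by
  rw [← wd_nil, revY_wd]; simp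

theorem revY_letter (n : ℕ+) : revY (wd [n]) = ((-1 : ℚ) ^ (n : ℕ)) • wd [n] := by
  rw [revY_wd]; simp

theorem revY_yy (n : ℕ) : revY (yy n) = ((-1 : ℚ) ^ n) • yy n := by
  rcases n with _ | n
  · simp [yy, revY_one]
  · rw [yy, revY_letter]; rfl

/-- `revY ⊗ revY`. -/
def rTT : TT →ₗ[ℚ] TT := TensorProduct.map revY revY

theorem rTT_tmul (a b : NC ℕ+) : rTT (a ⊗ₜ[ℚ] b) = revY a ⊗ₜ[ℚ] revY b := by
  simp [rTT]

theorem rTT_mul (x y : TT) : rTT (x * y) = rTT y * rTT x := by
  induction x using TensorProduct.induction_on with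
  | zero => simp
  | tmul a b =>
    induction y using TensorProduct.induction_on with
    | zero => simp
    | tmul c d =>
      rw [Algebra.TensorProduct.tmul_mul_tmul, rTT_tmul, rTT_tmul, rTT_tmul, revY_mul, revY_mul,
        Algebra.TensorProduct.tmul_mul_tmul]
    | add u v hu hv => rw [mul_add, map_add, hu, hv, map_add, add_mul]
  | add u v hu hv => rw [add_mul, map_add, hu, hv, map_add, mul_add]

theorem Delta_revY_yy (n : ℕ) : stuffleCoproduct (revY (yy n)) = rTT (stuffleCoproduct (yy n)) := by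
  rw [revY_yy, map_smul, Delta_yy, map_sum, Finset.smul_sum]
  apply Finset.sum_congr rfl
  rintro ⟨i, j⟩ hij
  rw [Finset.HasAntidiagonal.mem_antidiagonal] at hij
  simp only at hij ⊢
  rw [rTT_tmul, revY_yy, revY_yy, TensorProduct.smul_tmul_smul, ← pow_add, hij]

theorem Delta_revY (P : NC ℕ+) : stuffleCoproduct (revY P) = rTT (stuffleCoproduct P) := by
  have : stuffleCoproduct.toLinearMap ∘ₗ revY = rTT ∘ₗ stuffleCoproduct.toLinearMap := by
    apply lin_ext
    intro l
    simp only [LinearMap.comp_apply, AlgHom.toLinearMap_apply]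
    induction l with
    | nil =>
      rw [wd_nil, revY_one, map_one, Algebra.TensorProduct.one_def, rTT_tmul, revY_one]
    | cons n l ih =>
      rw [wd_cons, revY_mul, map_mul, map_mul, rTT_mul, ih, ← yy_coe, Delta_revY_yy]
  exact LinearMap.congr_fun this P

theorem Prim.revY {P : NC ℕ+} (hP : Prim P) : Prim (revY P) := by
  have h := Delta_revY P
  unfold Prim at *
  rw [h, hP, map_add, rTT_tmul, rTT_tmul, revY_one]

/-! ### Shifted letters -/

/-- `y_{a-b}`, which is `0` if `a < b`. -/
def ys (a b : ℕ) : NC ℕ+ := if b ≤ a then yy (a - b) else 0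

theorem ys_zero (a : ℕ) : ys a 0 = yy a := by rw [ys, if_pos (Nat.zero_le _)]; rfl

theorem ys_lt {a b : ℕ} (h : a < b) : ys a b = 0 := by rw [ys, if_neg (by omega)]

theorem ys_le {a b : ℕ} (h : b ≤ a) : ys a b = yy (a - b) := by rw [ys, if_pos h]

theorem Delta_yy_left (m M : ℕ) (h : m < M) :
    stuffleCoproduct (yy m) = ∑ b ∈ Finset.range M, ys m b ⊗ₜ[ℚ] yy b := by
  rw [Delta_yy, ← Finset.Nat.sum_antidiagonal_swap]
  simp only [Prod.fst_swap, Prod.snd_swap]
  rw [Finset.Nat.sum_antidiagonal_eq_sum_range_succ (fun i j => yy j ⊗ₜ[ℚ] yy i)]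
  have hsub : Finset.range m.succ ⊆ Finset.range M := by
    intro x hx
    rw [Finset.mem_range] at *
    omega
  rw [← Finset.sum_subset hsub]
  · apply Finset.sum_congr rfl
    intro b hb
    rw [Finset.mem_range] at hb
    rw [ys_le (by omega)]
  · intro b _ hb
    rw [Finset.mem_range] at hb
    rw [ys_lt (by omega), TensorProduct.zero_tmul]

theorem Delta_yy_right (m M : ℕ) (h : m < M) :
    stuffleCoproduct (yy m) = ∑ b ∈ Finset.range M, yy b ⊗ₜ[ℚ] ys m b := by
  rw [Delta_yy, Finset.Nat.sum_antidiagonal_eq_sum_range_succ (fun i j => yy i ⊗ₜ[ℚ] yy j)]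
  have hsub : Finset.range m.succ ⊆ Finset.range M := by
    intro x hx
    rw [Finset.mem_range] at *
    omega
  rw [← Finset.sum_subset hsub]
  · apply Finset.sum_congr rfl
    intro b hb
    rw [Finset.mem_range] at hb
    rw [ys_le (by omega)]
  · intro b _ hb
    rw [Finset.mem_range] at hb
    rw [ys_lt (by omega), TensorProduct.tmul_zero]

theorem Delta_prim_mul {P : NC ℕ+} (hP : Prim P) (m M : ℕ) (h : m < M) :
    stuffleCoproduct (P * yy m) =
      ∑ b ∈ Finset.range M, ((P * ys m b) ⊗ₜ[ℚ] yy b + yy b ⊗ₜ[ℚ] (P * ys m b)) := by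
  have hP' : stuffleCoproduct P = P ⊗ₜ[ℚ] 1 + 1 ⊗ₜ[ℚ] P := hP
  rw [map_mul, hP', add_mul, Finset.sum_add_distrib]
  congr 1
  · rw [Delta_yy_left m M h, Finset.mul_sum]
    apply Finset.sum_congr rfl
    intro b _
    rw [Algebra.TensorProduct.tmul_mul_tmul, one_mul]
  · rw [Delta_yy_right m M h, Finset.mul_sum]
    apply Finset.sum_congr rfl
    intro b _
    rw [Algebra.TensorProduct.tmul_mul_tmul, one_mul]

theorem Delta_mul_prim {P : NC ℕ+} (hP : Prim P) (m M : ℕ) (h : m < M) :
    stuffleCoproduct (yy m * P) =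
      ∑ b ∈ Finset.range M, ((ys m b * P) ⊗ₜ[ℚ] yy b + yy b ⊗ₜ[ℚ] (ys m b * P)) := by
  have hP' : stuffleCoproduct P = P ⊗ₜ[ℚ] 1 + 1 ⊗ₜ[ℚ] P := hP
  rw [map_mul, hP', mul_add, Finset.sum_add_distrib]
  congr 1
  · rw [Delta_yy_left m M h, Finset.sum_mul]
    apply Finset.sum_congr rfl
    intro b _
    rw [Algebra.TensorProduct.tmul_mul_tmul, mul_one]
  · rw [Delta_yy_right m M h, Finset.sum_mul]
    apply Finset.sum_congr rfl
    intro b _
    rw [Algebra.TensorProduct.tmul_mul_tmul, mul_one]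

/-! ### The elements `G_{n-b}` -/

/-- `P_0 = f_*` and `P_j` is the coefficient of `x₀^j` in `f`. -/
def PP (f : NC (Fin 2)) : ℕ → NC ℕ+
  | 0 => psiStar f
  | j + 1 => (Th f).coeff (j + 1)

/-- `P'_j = (-1)^{j+1} revY(P_j)`. -/
def PP' (f : NC (Fin 2)) (j : ℕ) : NC ℕ+ := ((-1 : ℚ) ^ (j + 1)) • revY (PP f j)

theorem prim_PP {f : NC (Fin 2)} (hf : IsDM f) (j : ℕ) : Prim (PP f j) := by
  rcases j with _ | j
  · exact hf.2.2.2.2
  · exact dm_prim hf j

theorem prim_PP' {f : NC (Fin 2)} (hf : IsDM f) (j : ℕ) : Prim (PP' f j) :=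
  Prim.smul _ (Prim.revY (prim_PP hf j))

/-- `G_{n-b} = ∑_j (P_j y_{j+n-b} - y_{j+n-b} P'_j)`. -/
def GG (f : NC (Fin 2)) (N n b : ℕ) : NC ℕ+ :=
  ∑ j ∈ Finset.range N, (PP f j * ys (j + n) b - ys (j + n) b * PP' f j)

theorem Delta_GG {f : NC (Fin 2)} (hf : IsDM f) (N n M : ℕ) (hM : N + n ≤ M) :
    stuffleCoproduct (GG f N n 0) =
      ∑ b ∈ Finset.range M, (GG f N n b ⊗ₜ[ℚ] yy b + yy b ⊗ₜ[ℚ] GG f N n b) := by
  rw [GG, map_sum]
  have h1 : ∀ j ∈ Finset.range N, stuffleCoproduct (PP f j * ys (j + n) 0 - ys (j + n) 0 * PP' f j) =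
      ∑ b ∈ Finset.range M, (((PP f j * ys (j + n) b - ys (j + n) b * PP' f j) ⊗ₜ[ℚ] yy b) +
        yy b ⊗ₜ[ℚ] (PP f j * ys (j + n) b - ys (j + n) b * PP' f j)) := by
    intro j hj
    rw [Finset.mem_range] at hj
    rw [ys_zero, map_sub, Delta_prim_mul (prim_PP hf j) _ M (by omega),
      Delta_mul_prim (prim_PP' hf j) _ M (by omega), ← Finset.sum_sub_distrib]
    apply Finset.sum_congr rfl
    intro b _
    rw [TensorProduct.sub_tmul, TensorProduct.tmul_sub]
    abel
  rw [Finset.sum_congr rfl h1, Finset.sum_comm]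
  apply Finset.sum_congr rfl
  intro b _
  rw [Finset.sum_add_distrib, GG, TensorProduct.sum_tmul, TensorProduct.tmul_sum]

/-! ### Expansions -/

theorem Th_expand (f : NC (Fin 2)) {N : ℕ} (hN : (Th f).natDegree < N) :
    f = ∑ j ∈ Finset.range N, jA ((Th f).coeff j) * x0 ^ j := by
  apply Th_injective
  rw [map_sum]
  simp only [Th_j]
  exact (Th f).as_sum_range' N hN

theorem piY_jA (t : NC ℕ+) : piY (jA t) = t := by
  have h := Th_j t 0
  rw [pow_zero, mul_one] at h
  rw [piY_eq, h, Polynomial.coeff_monomial, if_pos rfl]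

theorem piY_left (f : NC (Fin 2)) {N : ℕ} (hN : (Th f).natDegree < N) (m : ℕ) :
    piY (f * x0 ^ m * x1) = ∑ j ∈ Finset.range N, (Th f).coeff j * yy (j + (m + 1)) := by
  conv_lhs => rw [Th_expand f hN]
  rw [Finset.sum_mul, Finset.sum_mul, map_sum]
  apply Finset.sum_congr rfl
  intro j _
  rw [mul_assoc, mul_assoc, ← mul_assoc (x0 ^ j), ← pow_add, ← jA_yy, ← map_mul, piY_jA]
  rfl

theorem revL_one : revL 1 = 1 := by
  rw [← wd_nil, revL, linw_wd]; simp

theorem revL_x0_pow (j : ℕ) : revL (x0 ^ j) = ((-1 : ℚ) ^ j) • x0 ^ j := by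
  rw [← wd_replicate_zero, revL, linw_wd]
  simp

theorem revL_x1 : revL x1 = -x1 := by
  rw [x1, revL, linw_wd]; simp

theorem revL_jA (t : NC ℕ+) : revL (jA t) * x1 = x1 * jA (revY t) := by
  induction t using nc_induction with
  | hw l =>
    induction l with
    | nil => rw [wd_nil, map_one, revL_one, revY_one, map_one]; simp
    | cons n l ih =>
      rw [wd_cons, map_mul, revL_mul, mul_assoc]
      have h1 : revL (jA (wd [n])) * x1 = x1 * jA (revY (wd [n])) := by
        rw [jA_letter, revL_mul, revL_x0_pow, revL_x1, revY_letter, map_smul, jA_letter]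
        have hn : (n : ℕ) = ((n : ℕ) - 1) + 1 := by have := n.pos; omega
        conv_rhs => rw [hn, pow_succ]
        simp only [Nat.add_sub_cancel]
        rw [mul_smul_comm, smul_mul_assoc, mul_smul_comm, mul_neg_one, neg_smul, neg_mul, neg_mul,
          smul_neg, mul_assoc]
      rw [h1, ← mul_assoc, ih, mul_assoc, ← map_mul, revY_mul]
  | zero => simp
  | add a b ha hb => simp only [map_add, add_mul, mul_add, ha, hb]
  | smul c a ha => simp only [map_smul, smul_mul_assoc, mul_smul_comm, ha]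

theorem piY_right {f : NC (Fin 2)} (hf : f ∈ Lie01) {N : ℕ} (hN : (Th f).natDegree < N) (m : ℕ) :
    piY (x0 ^ m * f * x1) =
      ∑ j ∈ Finset.range N, yy (j + (m + 1)) * (((-1 : ℚ) ^ (j + 1)) • revY ((Th f).coeff j)) := by
  have h1 : f = -revL f := by rw [revL_lie hf, neg_neg]
  conv_lhs => rw [h1]
  conv_lhs => rw [Th_expand f hN]
  rw [map_sum, mul_neg, neg_mul, map_neg, Finset.mul_sum, Finset.sum_mul, map_sum,
    ← Finset.sum_neg_distrib]
  apply Finset.sum_congr rfl
  intro j _
  rw [revL_mul, revL_x0_pow, mul_assoc, mul_assoc, revL_jA, smul_mul_assoc, mul_smul_comm,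
    ← mul_assoc, ← pow_add, ← mul_assoc, ← jA_yy, ← map_mul, map_smul, piY_jA, mul_smul_comm,
    pow_succ, mul_neg_one, neg_smul]
  congr 3
  congr 1
  omega

/-! ### Coefficients of single letters -/

theorem cf_mul_single (p q : NC ℕ+) (m : ℕ+) :
    cf (p * q) [m] = cf p [] * cf q [m] + cf p [m] * cf q [] := by
  have h := cf_lq1 m (p * q) []
  rw [lq1_mul, cf_add, cf_smul, cf_lq1, cf_mul_nil, cf_lq1] at h
  rw [← h]; ring

theorem cf_revY_single (p : NC ℕ+) (m : ℕ+) :
    cf (revY p) [m] = (-1 : ℚ) ^ (m : ℕ) * cf p [m] := by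
  rw [cf_revY]; simp

theorem cf_yy_single (b : ℕ) (c : ℕ+) : cf (yy b) [c] = if b = (c : ℕ) then 1 else 0 := by
  have h := cf_yy_mul b c 1 []
  rw [mul_one, cf_one_cons, cf_one_nil] at h
  rw [h]; simp

theorem cf_dT_nil (P : NC ℕ+) : cf (dT P) [] = 0 := by
  induction P using nc_induction with
  | hw l =>
    induction l with
    | nil => rw [wd_nil, dT_one]; rfl
    | cons n l ih =>
      rw [wd_cons, dT_mul, cf_add, cf_mul_nil, cf_mul_nil, ih, dT_letter, cf_smul]
      rcases h : ((n : ℕ) - 1) with _ | k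
      · simp
      · rw [cf_yy_succ_nil]; simp
  | zero => simp
  | add a b ha hb => rw [map_add, cf_add, ha, hb, add_zero]
  | smul c a ha => rw [map_smul, cf_smul, ha, mul_zero]

theorem cf_dT_single (P : NC ℕ+) (m : ℕ+) : cf (dT P) [m] = (m : ℕ) * cf P [m + 1] := by
  induction P using nc_induction with
  | hw l =>
    rcases l with _ | ⟨n, l⟩
    · rw [wd_nil, dT_one, cf_one_cons]; simp
    · rw [wd_cons, dT_mul, cf_add, cf_mul_single, cf_mul_single, cf_mul_single, cf_dT_nil, cf_dT_nil,
        cf_wd [n] [], if_neg (by simp), dT_letter, cf_smul, cf_yy_single, cf_wd [n] [m + 1]]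
      by_cases h : n = m + 1
      · subst h
        simp
      · have h2 : ¬ ((n : ℕ) - 1 = (m : ℕ)) := by
          intro h3
          apply h
          apply PNat.eq
          rw [PNat.add_coe, PNat.one_coe]
          have := n.pos
          have := m.pos
          omega
        rw [if_neg h2, if_neg (by simpa using h)]
        ring
  | zero => simp
  | add a b ha hb => rw [map_add, cf_add, ha, hb, cf_add]; ring
  | smul c a ha => rw [map_smul, cf_smul, ha, cf_smul]; ring

/-! ### Parity -/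

theorem Hg_psiStar {f : NC (Fin 2)} {w : ℕ} (h : Hg wX w f) : Hg wY w (psiStar f) := by
  apply Hg_of_comp
  rw [← psiStar_comp, h.comp_eq]

theorem depth_one_zero {f : NC (Fin 2)} (hf : IsDM f) {k : ℕ} (hk : 2 ≤ k) (hom : Hg wX (2 * k) f)
    (j : ℕ) : ∀ m : ℕ+, cf ((Th f).coeff j) [m] = 0 := by
  induction j with
  | zero =>
    intro m
    rw [cf_Th, List.replicate_zero, List.append_nil]
    by_cases hm : (m : ℕ) = 2 * k
    · have h := parity hf hk hom
      rw [yw, hm]
      exact h
    · by_contra hne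
      have h := hom _ hne
      rw [wt_wX, length_yw] at h
      apply hm
      simpa using h
  | succ j ih =>
    intro m
    have h := dm_rec hf j
    have h2 := congrArg (fun q => cf q [m]) h
    simp only [cf_smul, cf_neg, cf_dT_single, ih, mul_zero, neg_zero] at h2
    have hn : ((j : ℚ) + 1) ≠ 0 := by positivity
    exact (mul_eq_zero.mp h2).resolve_left hn

theorem corr_parity {f : NC (Fin 2)} (hf : IsDM f) {w : ℕ} (hw : 3 ≤ w) (hom : Hg wX w f) :
    revY (corr f) = -corr f ∧ (Even w → corr f = 0) := by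
  have h1 := corr_even (by omega) hom
  have h2 : revY (wd (List.replicate w (1 : ℕ+))) = ((-1 : ℚ) ^ w) • wd (List.replicate w 1) := by
    rw [revY_wd, List.reverse_replicate, wt_replicate]; simp
  rcases Nat.even_or_odd w with hev | hodd
  · obtain ⟨k, hk⟩ := hev
    have hk2 : w = 2 * k := by omega
    subst hk2
    have h3 := parity hf (by omega) hom
    rw [h3, mul_zero, zero_smul] at h1
    rw [h1]; simp
  · constructor
    · rw [h1, map_smul, h2, hodd.neg_one_pow, neg_one_smul, smul_neg]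
    · intro hev
      exact absurd hev (Nat.not_even_iff_odd.mpr hodd)

theorem PP_single {f : NC (Fin 2)} (hf : IsDM f) {w : ℕ} (hw : 3 ≤ w) (hom : Hg wX w f)
    (j : ℕ) (m : ℕ+) : cf (PP' f j) [m] = cf (PP f j) [m] := by
  rw [PP', cf_smul, cf_revY_single, ← mul_assoc, ← pow_add]
  rcases Nat.even_or_odd w with hev | hodd
  · have hk : ∃ k, w = 2 * k := by obtain ⟨k, hk⟩ := hev; exact ⟨k, by omega⟩
    obtain ⟨k, rfl⟩ := hk
    have h0 := depth_one_zero hf (by omega) hom
    have h1 : cf (PP f j) [m] = 0 := by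
      rcases j with _ | j
      · rw [PP, psiStar, (corr_parity hf hw hom).2 hev, add_zero, piY_eq]
        exact h0 0 m
      · exact h0 (j + 1) m
    rw [h1, mul_zero]
  · by_cases h1 : cf (PP f j) [m] = 0
    · rw [h1, mul_zero]
    · have h2 : (m : ℕ) + j = w := by
        rcases j with _ | j
        · have := Hg_psiStar hom _ h1
          simpa using this
        · have := Hg_Th hom _ _ h1
          simpa using this
      have h3 : (-1 : ℚ) ^ (j + 1 + (m : ℕ)) = 1 := by
        have : j + 1 + (m : ℕ) = w + 1 := by omega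
        rw [this]
        exact (hodd.add_odd odd_one).neg_one_pow
      rw [h3, one_mul]

theorem GG_single {f : NC (Fin 2)} (hf : IsDM f) {w : ℕ} (hw : 3 ≤ w) (hom : Hg wX w f)
    (N n b : ℕ) (m : ℕ+) : cf (GG f N n b) [m] = 0 := by
  rw [GG, cf_sum]
  apply Finset.sum_eq_zero
  intro j _
  rw [cf_sub, cf_mul_single, cf_mul_single, (prim_PP hf j).cf_nil, (prim_PP' hf j).cf_nil,
    PP_single hf hw hom]
  ring

/-! ### The derivation -/

/-- The derivation `E'` of `ℚ⟨Y⟩`. -/
def Ed (f : NC (Fin 2)) : NC ℕ+ →ₗ[ℚ] NC ℕ+ :=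
  delT f + LinearMap.mulLeft ℚ (corr f) - LinearMap.mulRight ℚ (corr f)

theorem Ed_apply (f : NC (Fin 2)) (u : NC ℕ+) : Ed f u = delT f u + corr f * u - u * corr f := rfl

theorem delT_mul (f : NC (Fin 2)) (p q : NC ℕ+) :
    delT f (p * q) = delT f p * q + p * delT f q := der_mul _ p q

theorem Ed_mul (f : NC (Fin 2)) (p q : NC ℕ+) : Ed f (p * q) = Ed f p * q + p * Ed f q := by
  simp only [Ed_apply, delT_mul]
  noncomm_ring

theorem Ed_one (f : NC (Fin 2)) : Ed f 1 = 0 := by
  rw [Ed_apply, delT, der_one]; simp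

theorem delT_yy_succ (f : NC (Fin 2)) (n : ℕ) :
    delT f (yy (n + 1)) = piY (f * x0 ^ n * x1) - piY (x0 ^ n * f * x1) := by
  rw [yy, delT, der_letter, Nat.succPNat_coe, Nat.succ_sub_one, sub_mul, map_sub]

theorem GG_eq {f : NC (Fin 2)} (hf : IsDM f) (hc : revY (corr f) = -corr f) {N : ℕ}
    (hN : (Th f).natDegree < N) (n : ℕ) : GG f N (n + 1) 0 = Ed f (yy (n + 1)) := by
  rw [Ed_apply, delT_yy_succ, piY_left f hN, piY_right hf.1 hN, ← Finset.sum_sub_distrib]
  obtain ⟨N, rfl⟩ : ∃ K, N = K + 1 := ⟨N - 1, by omega⟩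
  rw [GG, Finset.sum_range_succ', Finset.sum_range_succ']
  simp only [ys_zero, PP, PP', psiStar, piY_eq, map_add, hc]
  simp only [zero_add, pow_one, neg_smul, one_smul]
  noncomm_ring

theorem corr_comm (f : NC (Fin 2)) : corr f * wd [1] = wd [1] * corr f := by
  have : LinearMap.mulRight ℚ (wd [1]) ∘ₗ corr = LinearMap.mulLeft ℚ (wd [1]) ∘ₗ corr := by
    apply lin_ext
    intro l
    simp only [LinearMap.comp_apply, LinearMap.mulRight_apply, LinearMap.mulLeft_apply]
    rw [corr, linw_wd]
    split_ifs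
    · rw [smul_mul_assoc, mul_smul_comm, ← wd_append, ← wd_append, ← List.replicate_succ']
      rfl
    · simp
  exact LinearMap.congr_fun this f

theorem Ed_y1 (f : NC (Fin 2)) : Ed f (yy 1) = 0 := by
  rw [Ed_apply, delT_yy_succ, pow_zero, mul_one, one_mul, sub_self, zero_add]
  have h := corr_comm f
  have h1 : yy 1 = wd [1] := rfl
  rw [h1, h, sub_self]

theorem GG_vanish {f : NC (Fin 2)} (hf : IsDM f) {w : ℕ} (hw : 3 ≤ w) (hom : Hg wX w f)
    {N : ℕ} (hN : (Th f).natDegree < N) (c : ℕ) : GG f N 1 c = 0 := by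
  have hz : GG f N 1 0 = 0 := by
    rw [GG_eq hf (corr_parity hf hw hom).1 hN 0]; exact Ed_y1 f
  rcases c with _ | c
  · exact hz
  · by_cases hcN : N + 1 ≤ c + 1
    · rw [GG]
      apply Finset.sum_eq_zero
      intro j hj
      rw [Finset.mem_range] at hj
      rw [ys_lt (by omega)]; simp
    · have h := Delta_GG hf N 1 (N + 1) le_rfl
      rw [hz, map_zero] at h
      apply cf_ext
      intro t
      have h2 := congrArg (tc t [c.succPNat]) h
      rw [map_zero, map_sum] at h2
      simp only [map_add, tc_tmul, GG_single hf hw hom, cf_yy_single, mul_zero, add_zero] at h2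
      rw [Finset.sum_eq_single (c + 1)] at h2
      · rw [if_pos (by rw [Nat.succPNat_coe]), mul_one] at h2
        rw [cf_zero]
        exact h2.symm
      · intro b _ hb
        rw [if_neg (by rw [Nat.succPNat_coe]; exact hb), mul_zero]
      · intro hb
        rw [Finset.mem_range] at hb
        omega

theorem GG_shift {f : NC (Fin 2)} (hf : IsDM f) {w : ℕ} (hw : 3 ≤ w) (hom : Hg wX w f)
    {N : ℕ} (hN : (Th f).natDegree < N) (n b : ℕ) :
    GG f N (n + 1) b = Ed f (ys (n + 1) b) := by
  by_cases hb : b ≤ n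
  · have h1 : GG f N (n + 1) b = GG f N ((n - b) + 1) 0 := by
      rw [GG, GG]
      apply Finset.sum_congr rfl
      intro j _
      have : ys (j + (n + 1)) b = ys (j + ((n - b) + 1)) 0 := by
        rw [ys_le (by omega), ys_zero]; congr 1; omega
      rw [this]
    rw [h1, GG_eq hf (corr_parity hf hw hom).1 hN, ys_le (by omega)]
    congr 2
    omega
  · have h1 : GG f N (n + 1) b = GG f N 1 (b - n) := by
      rw [GG, GG]
      apply Finset.sum_congr rfl
      intro j _
      have : ys (j + (n + 1)) b = ys (j + 1) (b - n) := by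
        by_cases hj : b ≤ j + (n + 1)
        · rw [ys_le hj, ys_le (by omega)]; congr 1; omega
        · rw [ys_lt (by omega), ys_lt (by omega)]
      rw [this]
    rw [h1, GG_vanish hf hw hom hN]
    by_cases hbn : b = n + 1
    · subst hbn
      rw [ys_le le_rfl, Nat.sub_self]
      exact (Ed_one f).symm
    · rw [ys_lt (by omega), map_zero]

/-- `L ⊗ 1 + 1 ⊗ L`. -/
def LT (L : NC ℕ+ →ₗ[ℚ] NC ℕ+) : TT →ₗ[ℚ] TT :=
  TensorProduct.map L LinearMap.id + TensorProduct.map LinearMap.id L

theorem LT_tmul (L : NC ℕ+ →ₗ[ℚ] NC ℕ+) (a b : NC ℕ+) :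
    LT L (a ⊗ₜ[ℚ] b) = L a ⊗ₜ[ℚ] b + a ⊗ₜ[ℚ] L b := by
  simp [LT]

theorem LT_mul {L : NC ℕ+ →ₗ[ℚ] NC ℕ+} (hL : ∀ p q, L (p * q) = L p * q + p * L q) (x y : TT) :
    LT L (x * y) = LT L x * y + x * LT L y := by
  induction x using TensorProduct.induction_on with
  | zero => simp
  | tmul a b =>
    induction y using TensorProduct.induction_on with
    | zero => simp
    | tmul c d =>
      rw [Algebra.TensorProduct.tmul_mul_tmul, LT_tmul, LT_tmul, LT_tmul, hL, hL, add_mul, mul_add,
        Algebra.TensorProduct.tmul_mul_tmul, Algebra.TensorProduct.tmul_mul_tmul,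
        Algebra.TensorProduct.tmul_mul_tmul, Algebra.TensorProduct.tmul_mul_tmul,
        TensorProduct.add_tmul, TensorProduct.tmul_add]
      abel
    | add u v hu hv => rw [mul_add, map_add, hu, hv, map_add]; noncomm_ring
  | add u v hu hv => rw [add_mul, map_add, hu, hv, map_add]; noncomm_ring

theorem Delta_Ed {f : NC (Fin 2)} (hf : IsDM f) {w : ℕ} (hw : 3 ≤ w) (hom : Hg wX w f)
    (u : NC ℕ+) : stuffleCoproduct (Ed f u) = LT (Ed f) (stuffleCoproduct u) := by
  have : stuffleCoproduct.toLinearMap ∘ₗ Ed f = LT (Ed f) ∘ₗ stuffleCoproduct.toLinearMap := by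
    apply leibniz_ext stuffleCoproduct
    · intro p q
      simp only [LinearMap.comp_apply, AlgHom.toLinearMap_apply, Ed_mul, map_add, map_mul]
    · intro p q
      simp only [LinearMap.comp_apply, AlgHom.toLinearMap_apply, map_mul]
      exact LT_mul (Ed_mul f) _ _
    · intro a
      simp only [LinearMap.comp_apply, AlgHom.toLinearMap_apply]
      obtain ⟨n, rfl⟩ : ∃ n : ℕ, a = n.succPNat := ⟨a.natPred, (PNat.succPNat_natPred a).symm⟩
      have hy : (wd [n.succPNat] : NC ℕ+) = yy (n + 1) := rfl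
      set N := (Th f).natDegree + 1 with hN
      have hN' : (Th f).natDegree < N := by omega
      rw [hy, ← GG_eq hf (corr_parity hf hw hom).1 hN', Delta_GG hf N (n + 1) (N + (n + 1)) le_rfl,
        LT, LinearMap.add_apply, Finset.sum_add_distrib]
      congr 1
      · rw [Delta_yy_left (n + 1) (N + (n + 1)) (by omega), map_sum]
        apply Finset.sum_congr rfl
        intro b _
        rw [TensorProduct.map_tmul, GG_shift hf hw hom hN', LinearMap.id_apply]
      · rw [Delta_yy_right (n + 1) (N + (n + 1)) (by omega), map_sum]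
        apply Finset.sum_congr rfl
        intro b _
        rw [TensorProduct.map_tmul, GG_shift hf hw hom hN', LinearMap.id_apply]
  exact LinearMap.congr_fun this u

/-! ### The coderivation `S_f` -/

/-- `S_f(u) = E'(u) + u · f_*`. -/
def Sst (f : NC (Fin 2)) : NC ℕ+ →ₗ[ℚ] NC ℕ+ := Ed f + LinearMap.mulRight ℚ (psiStar f)

theorem Sst_apply (f : NC (Fin 2)) (u : NC ℕ+) : Sst f u = Ed f u + u * psiStar f := rfl

theorem Sst_eq (f : NC (Fin 2)) (u : NC ℕ+) :
    Sst f u = delT f u + u * piY f + corr f * u := by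
  rw [Sst_apply, Ed_apply, psiStar]
  noncomm_ring

theorem LT_add (L L' : NC ℕ+ →ₗ[ℚ] NC ℕ+) (x : TT) : LT (L + L') x = LT L x + LT L' x := by
  induction x using TensorProduct.induction_on with
  | zero => simp
  | tmul a b =>
    rw [LT_tmul, LT_tmul, LT_tmul, LinearMap.add_apply, LinearMap.add_apply, TensorProduct.add_tmul,
      TensorProduct.tmul_add]
    abel
  | add u v hu hv => rw [map_add, map_add, map_add, hu, hv]; abel

theorem LT_smul (c : ℚ) (L : NC ℕ+ →ₗ[ℚ] NC ℕ+) (x : TT) : LT (c • L) x = c • LT L x := by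
  induction x using TensorProduct.induction_on with
  | zero => simp
  | tmul a b =>
    rw [LT_tmul, LT_tmul, LinearMap.smul_apply, LinearMap.smul_apply, TensorProduct.tmul_smul,
      ← TensorProduct.smul_tmul', smul_add]
  | add u v hu hv => rw [map_add, map_add, hu, hv, smul_add]

theorem LT_mulRight (P : NC ℕ+) (x : TT) :
    LT (LinearMap.mulRight ℚ P) x = x * (P ⊗ₜ[ℚ] 1 + 1 ⊗ₜ[ℚ] P) := by
  induction x using TensorProduct.induction_on with
  | zero => simp
  | tmul a b =>
    rw [LT_tmul, mul_add, Algebra.TensorProduct.tmul_mul_tmul, Algebra.TensorProduct.tmul_mul_tmul,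
      mul_one, mul_one]
    rfl
  | add u v hu hv => rw [map_add, hu, hv, add_mul]

theorem Delta_Sst_hom {f : NC (Fin 2)} (hf : IsDM f) {w : ℕ} (hw : 3 ≤ w) (hom : Hg wX w f)
    (u : NC ℕ+) : stuffleCoproduct (Sst f u) = LT (Sst f) (stuffleCoproduct u) := by
  have h5 : stuffleCoproduct (psiStar f) = psiStar f ⊗ₜ[ℚ] 1 + 1 ⊗ₜ[ℚ] psiStar f := hf.2.2.2.2
  rw [Sst, LT_add, LT_mulRight, LinearMap.add_apply, map_add, Delta_Ed hf hw hom,
    LinearMap.mulRight_apply, map_mul, h5]

/-! ### Linearity in `f` -/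

theorem delT_add (f g : NC (Fin 2)) : delT (f + g) = delT f + delT g := by
  apply der_ext (delT_mul _)
  · intro p q
    simp only [LinearMap.add_apply, delT_mul]; noncomm_ring
  · intro a
    rw [LinearMap.add_apply, delT, delT, delT, der_letter, der_letter, der_letter, ← map_add]
    congr 1
    noncomm_ring

theorem delT_smul (c : ℚ) (f : NC (Fin 2)) : delT (c • f) = c • delT f := by
  apply der_ext (delT_mul _)
  · intro p q
    simp only [LinearMap.smul_apply, delT_mul, smul_add, smul_mul_assoc, mul_smul_comm]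
  · intro a
    rw [LinearMap.smul_apply, delT, delT, der_letter, der_letter, ← map_smul]
    congr 1
    rw [smul_mul_assoc, mul_smul_comm, ← smul_sub, smul_mul_assoc]

theorem Sst_add (f g : NC (Fin 2)) : Sst (f + g) = Sst f + Sst g := by
  refine LinearMap.ext fun u => ?_
  rw [LinearMap.add_apply, Sst_eq, Sst_eq, Sst_eq, delT_add, map_add, map_add, LinearMap.add_apply]
  noncomm_ring

theorem Sst_smul (c : ℚ) (f : NC (Fin 2)) : Sst (c • f) = c • Sst f := by
  refine LinearMap.ext fun u => ?_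
  rw [LinearMap.smul_apply, Sst_eq, Sst_eq, delT_smul, map_smul, map_smul, LinearMap.smul_apply,
    smul_mul_assoc, mul_smul_comm, smul_add, smul_add]

section
attribute [local instance] LieRing.ofAssociativeRing

theorem isDM_zero : IsDM 0 := by
  refine ⟨Lie01.zero_mem, rfl, rfl, rfl, ?_⟩
  simp [psiStar]

end

theorem IsDM.add {f g : NC (Fin 2)} (hf : IsDM f) (hg : IsDM g) : IsDM (f + g) := by
  have h := hf.sub (hg.smul (-1))
  rwa [neg_one_smul, sub_neg_eq_add] at h

theorem IsDM.sum {ι : Type*} (s : Finset ι) (F : ι → NC (Fin 2)) (h : ∀ i ∈ s, IsDM (F i)) :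
    IsDM (∑ i ∈ s, F i) := by
  classical
  induction s using Finset.induction_on with
  | empty => simpa using isDM_zero
  | insert a s ha ih =>
    rw [Finset.sum_insert ha]
    exact IsDM.add (h a (Finset.mem_insert_self a s))
      (ih (fun i hi => h i (Finset.mem_insert_of_mem hi)))

theorem comp_small {f : NC (Fin 2)} (hf : IsDM f) {n : ℕ} (hn : n ≤ 2) : comp wX n f = 0 := by
  apply cf_ext
  intro l
  rw [cf_comp, cf_zero]
  split_ifs with h
  · rw [wt_wX] at h
    exact dm_small hf l (by omega)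
  · rfl

/-- Induction: a property of elements of `dm` follows from the homogeneous case. -/
theorem dm_induction {p : NC (Fin 2) → Prop} (h0 : p 0) (hadd : ∀ a b, p a → p b → p (a + b))
    (hhom : ∀ (f : NC (Fin 2)) (w : ℕ), 3 ≤ w → IsDM f → Hg wX w f → p f)
    {f : NC (Fin 2)} (hf : IsDM f) : p f := by
  classical
  have key : ∀ s : Finset ℕ, p (∑ i ∈ s, comp wX i f) := by
    intro s
    induction s using Finset.induction_on with
    | empty => simpa using h0
    | insert a s ha ih =>
      rw [Finset.sum_insert ha]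
      refine hadd _ _ ?_ ih
      by_cases h : 3 ≤ a
      · exact hhom _ a h (hf.comp a) (Hg_comp a f)
      · rw [comp_small hf (by omega)]; exact h0
  rw [← sum_comp (w := wX) f _ (Nat.lt_succ_self _)]
  exact key _

/-- **Racinet**: `S_f` is a coderivation for the stuffle coproduct. -/
theorem Delta_Sst {f : NC (Fin 2)} (hf : IsDM f) (u : NC ℕ+) :
    stuffleCoproduct (Sst f u) = LT (Sst f) (stuffleCoproduct u) := by
  revert u
  apply dm_induction (p := fun f => ∀ u, stuffleCoproduct (Sst f u) = LT (Sst f) (stuffleCoproduct u))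
    _ _ _ hf
  · intro u
    have h : Sst 0 = 0 := by
      have := Sst_smul 0 (0 : NC (Fin 2))
      rwa [zero_smul, zero_smul] at this
    rw [h]
    simp [LT]
  · intro a b ha hb u
    rw [Sst_add, LT_add, LinearMap.add_apply, map_add, ha, hb]
  · intro f w hw hf hom u
    exact Delta_Sst_hom hf hw hom u

/-! ### Closure under the Ihara bracket -/

theorem Delta_Sst_prim {f : NC (Fin 2)} (hf : IsDM f) {P : NC ℕ+} (hP : Prim P) :
    stuffleCoproduct (Sst f P) = Sst f P ⊗ₜ[ℚ] 1 + 1 ⊗ₜ[ℚ] Sst f P +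
      (P ⊗ₜ[ℚ] psiStar f + psiStar f ⊗ₜ[ℚ] P) := by
  have hP' : stuffleCoproduct P = P ⊗ₜ[ℚ] 1 + 1 ⊗ₜ[ℚ] P := hP
  have h1 : Sst f 1 = psiStar f := by rw [Sst_apply, Ed_one]; simp
  rw [Delta_Sst hf, hP', map_add, LT_tmul, LT_tmul, h1]
  abel

theorem delT_y1 (f : NC (Fin 2)) : delT f (wd [1]) = 0 := by
  have h := delT_yy_succ f 0
  rw [pow_zero, mul_one, one_mul, sub_self] at h
  exact h

theorem delT_corr (f g : NC (Fin 2)) : delT f (corr g) = 0 := by
  have hy : ∀ m : ℕ, delT f (wd (List.replicate m 1)) = 0 := by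
    intro m
    induction m with
    | zero => rw [List.replicate_zero, wd_nil, delT, der_one]
    | succ m ih => rw [List.replicate_succ, wd_cons, delT_mul, ih, delT_y1]; simp
  have : delT f ∘ₗ corr = 0 := by
    apply lin_ext
    intro l
    simp only [LinearMap.comp_apply, LinearMap.zero_apply]
    rw [corr, linw_wd]
    split_ifs
    · rw [map_smul, hy, smul_zero]
    · rw [map_zero]
  exact LinearMap.congr_fun this g

theorem corr_wd (l : List (Fin 2)) : corr (wd l) =
    if 2 ≤ l.length ∧ l = List.replicate (l.length - 1) 0 ++ [1]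
    then ((-1 : ℚ) ^ (l.length - 1) / l.length) • wd (List.replicate l.length 1) else 0 := by
  rw [corr, linw_wd]

theorem corr_corr_comm (f g : NC (Fin 2)) : corr f * corr g = corr g * corr f := by
  have hy : ∀ m : ℕ, corr f * wd (List.replicate m 1) = wd (List.replicate m 1) * corr f := by
    intro m
    induction m with
    | zero => rw [List.replicate_zero, wd_nil]; simp
    | succ m ih =>
      rw [List.replicate_succ, wd_cons, ← mul_assoc, corr_comm, mul_assoc, ih, mul_assoc]
  have : LinearMap.mulLeft ℚ (corr f) ∘ₗ corr = LinearMap.mulRight ℚ (corr f) ∘ₗ corr := by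
    apply lin_ext
    intro l
    simp only [LinearMap.comp_apply, LinearMap.mulLeft_apply, LinearMap.mulRight_apply]
    rw [corr_wd]
    split_ifs
    · rw [mul_smul_comm, hy, smul_mul_assoc]
    · simp
  exact LinearMap.congr_fun this g

theorem Sst_piY (f h : NC (Fin 2)) : Sst f (piY h) = piY (sOp f h) + corr f * piY h := by
  have h1 := Th_sOp_coeff f h 0
  rw [Polynomial.mul_coeff_zero, ← piY_eq, ← piY_eq, ← piY_eq] at h1
  rw [Sst_eq, h1]
  abel

theorem Sst_corr (f g : NC (Fin 2)) : Sst f (corr g) = corr g * piY f + corr f * corr g := by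
  rw [Sst_eq, delT_corr, zero_add]

theorem psiStar_bracket (f g : NC (Fin 2)) :
    Sst f (psiStar g) - Sst g (psiStar f) = piY (ihBr f g) := by
  have h1 : ihBr f g = sOp f g - sOp g f := by
    rw [ihBr, sOp_apply, sOp_apply]; abel
  rw [psiStar, psiStar, map_add, map_add, Sst_piY, Sst_piY, Sst_corr, Sst_corr, h1, map_sub,
    corr_corr_comm f g]
  abel

/-! ### Depth -/

/-- The depth: `x₀` has depth `0` and `x₁` has depth `1`. -/
abbrev wD : Fin 2 → ℕ := fun a => (a : ℕ)

section
attribute [local instance] LieRing.ofAssociativeRing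

theorem comp0_lie {f : NC (Fin 2)} (hf : f ∈ Lie01) : ∃ c : ℚ, comp wD 0 f = c • x0 := by
  induction hf using LieSubalgebra.lieSpan_induction with
  | mem x hx =>
    rcases hx with rfl | hx
    · exact ⟨1, by rw [x0, comp_wd]; simp⟩
    · rw [Set.mem_singleton_iff] at hx
      subst hx
      exact ⟨0, by rw [x1, comp_wd]; simp⟩
  | zero => exact ⟨0, by simp⟩
  | add a b _ _ ha hb =>
    obtain ⟨c, hc⟩ := ha
    obtain ⟨d, hd⟩ := hb
    exact ⟨c + d, by rw [map_add, hc, hd, add_smul]⟩
  | smul r a _ ha =>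
    obtain ⟨c, hc⟩ := ha
    exact ⟨r * c, by rw [map_smul, hc, mul_smul]⟩
  | lie a b _ _ ha hb =>
    obtain ⟨c, hc⟩ := ha
    obtain ⟨d, hd⟩ := hb
    refine ⟨0, ?_⟩
    rw [LieRing.of_associative_ring_bracket, map_sub, comp_mul, comp_mul]
    simp only [Finset.Nat.antidiagonal_zero, Finset.sum_singleton, hc, hd]
    rw [smul_mul_smul_comm, smul_mul_smul_comm, mul_comm c d, sub_self, zero_smul]

end

theorem comp0_dm {f : NC (Fin 2)} (hf : IsDM f) : comp wD 0 f = 0 := by
  obtain ⟨c, hc⟩ := comp0_lie hf.1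
  have h1 := congrArg (fun q => cf q [0]) hc
  simp only [cf_smul] at h1
  rw [cf_comp, if_pos (by simp [wt]), hf.2.1, x0, cf_wd, if_pos rfl, mul_one] at h1
  rw [hc, ← h1, zero_smul]

theorem comp_ihDer_wd {f : NC (Fin 2)} (hf : comp wD 0 f = 0) (l : List (Fin 2)) :
    ∀ n ≤ wt wD l, comp wD n (ihDer f (wd l)) = 0 := by
  have h1 : ∀ n ≤ 1, comp wD n (ihDer f (wd [1])) = 0 := by
    intro n hn
    have hx : (wd [1] : NC (Fin 2)) = x1 := rfl
    have hx0 : comp wD 0 (x1 : NC (Fin 2)) = 0 := by rw [x1, comp_wd]; simp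
    rw [hx, ihDer_x1, map_sub, comp_mul, comp_mul]
    have hn2 : n = 0 ∨ n = 1 := by omega
    rcases hn2 with rfl | rfl
    · simp [hf]
    · simp [Finset.Nat.antidiagonal_succ, hf, hx0]
  induction l with
  | nil =>
    intro n _
    rw [wd_nil, ihDer_one, map_zero]
  | cons a l ih =>
    intro n hn
    rw [wt_cons] at hn
    rw [wd_cons, ihDer_mul, map_add, comp_mul, comp_mul, Finset.sum_eq_zero, Finset.sum_eq_zero,
      add_zero]
    · rintro ⟨i, j⟩ hij
      rw [Finset.HasAntidiagonal.mem_antidiagonal] at hij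
      simp only at hij ⊢
      by_cases hi : i = wD a
      · rw [ih j (by omega), mul_zero]
      · rw [comp_wd, if_neg, zero_mul]
        rw [wt_cons, wt_nil, add_zero]
        exact fun h => hi h.symm
    · rintro ⟨i, j⟩ hij
      rw [Finset.HasAntidiagonal.mem_antidiagonal] at hij
      simp only at hij ⊢
      by_cases hj : j = wt wD l
      · have hx : comp wD i (ihDer f (wd [a])) = 0 := by
          have ha2 : a = 0 ∨ a = 1 := by
            rcases a with ⟨_ | _ | k, hk⟩
            · left; rfl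
            · right; rfl
            · omega
          rcases ha2 with rfl | rfl
          · have hx : (wd [0] : NC (Fin 2)) = x0 := rfl
            rw [hx, ihDer_x0, map_zero]
          · apply h1
            have : wD (1 : Fin 2) = 1 := rfl
            omega
        rw [hx, zero_mul]
      · rw [comp_wd wD j l, if_neg (fun h => hj h.symm), mul_zero]

theorem comp_ihDer {f : NC (Fin 2)} (hf : comp wD 0 f = 0) (n : ℕ) (g : NC (Fin 2)) :
    comp wD n (ihDer f g) = ∑ m ∈ Finset.range n, comp wD n (ihDer f (comp wD m g)) := by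
  have : comp wD n ∘ₗ ihDer f =
      ∑ m ∈ Finset.range n, comp wD n ∘ₗ ihDer f ∘ₗ comp wD m := by
    apply lin_ext
    intro l
    rw [LinearMap.sum_apply]
    simp only [LinearMap.comp_apply]
    by_cases h : wt wD l < n
    · rw [Finset.sum_eq_single (wt wD l)]
      · rw [comp_wd wD (wt wD l), if_pos rfl]
      · intro b _ hb
        rw [comp_wd wD b, if_neg (fun h => hb h.symm), map_zero, map_zero]
      · intro hb
        rw [Finset.mem_range] at hb
        omega
    · rw [comp_ihDer_wd hf l n (by omega), Finset.sum_eq_zero]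
      intro m hm
      rw [Finset.mem_range] at hm
      rw [comp_wd wD m, if_neg (by omega), map_zero, map_zero]
  have h := LinearMap.congr_fun this g
  rw [LinearMap.sum_apply] at h
  exact h

theorem corr_comp (h : NC (Fin 2)) : corr h = corr (comp wD 1 h) := by
  have : corr = corr ∘ₗ comp wD 1 := by
    apply lin_ext
    intro l
    rw [LinearMap.comp_apply, comp_wd]
    by_cases h1 : wt wD l = 1
    · rw [if_pos h1]
    · rw [if_neg h1, map_zero, corr_wd, if_neg]
      rintro ⟨h2, h3⟩
      apply h1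
      rw [h3]
      simp [wt]
  exact LinearMap.congr_fun this h

theorem corr_bracket {f g : NC (Fin 2)} (hf : IsDM f) (hg : IsDM g) : corr (ihBr f g) = 0 := by
  have hf0 := comp0_dm hf
  have hg0 := comp0_dm hg
  have h1 : comp wD 1 (ihBr f g) = 0 := by
    rw [ihBr, map_sub, map_add, map_sub, comp_mul, comp_mul, comp_ihDer hf0, comp_ihDer hg0]
    simp [Finset.Nat.antidiagonal_succ, hf0, hg0]
  rw [corr_comp, h1, map_zero]

theorem comp_bracket_small {f g : NC (Fin 2)} (hf : IsDM f) (hg : IsDM g) {n : ℕ} (hn : n ≤ 2) :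
    comp wX n (ihBr f g) = 0 := by
  have h1 : ihBr f g = sOp f g - sOp g f := by
    rw [ihBr, sOp_apply, sOp_apply]; abel
  have key : ∀ {f g : NC (Fin 2)}, IsDM f → comp wX n (sOp f g) = 0 := by
    intro f g hf
    rw [comp_sOp]
    apply Finset.sum_eq_zero
    rintro ⟨i, j⟩ hij
    rw [Finset.HasAntidiagonal.mem_antidiagonal] at hij
    simp only at hij ⊢
    rw [comp_small hf (by omega), sOp_zero_left]
  rw [h1, map_sub, key hf, key hg, sub_zero]

/-- **Racinet**: `dm` is closed under the Ihara bracket. -/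
theorem IsDM.bracket {f g : NC (Fin 2)} (hf : IsDM f) (hg : IsDM g) : IsDM (ihBr f g) := by
  have hsmall : ∀ l : List (Fin 2), l.length ≤ 2 → cf (ihBr f g) l = 0 := by
    intro l hl
    have h := comp_bracket_small hf hg hl
    have h2 : cf (comp wX l.length (ihBr f g)) l = 0 := by rw [h]; rfl
    rwa [cf_comp, if_pos (wt_wX l)] at h2
  refine ⟨ihBr_mem hf.1 hg.1, hsmall _ (by simp), hsmall _ (by simp), hsmall _ (by simp), ?_⟩
  rw [psiStar, corr_bracket hf hg, add_zero, ← psiStar_bracket, map_sub,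
    Delta_Sst_prim hf hg.2.2.2.2, Delta_Sst_prim hg hf.2.2.2.2, TensorProduct.sub_tmul,
    TensorProduct.tmul_sub]
  abel

end

end Pool.Agent.ECL
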