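import Mathlib
import Pool.Agent.Lib.H4DMKey
import Pool.Agent.ECG.Dynkin
import Pool.Agent.ECG.Crit
import Pool.Agent.ECG.Torsor

/-!
# Transposed operators; transposes of coderivations are derivations; exponentials
-/

set_option autoImplicit false

open scoped TensorProduct

namespace Pool.Agent.ECL

open Pool.Agent.H4DM Pool.Agent.ECG

noncomputable section

section pairing
variable {α β γ : Type}

/-- The pairing of two noncommutative polynomials. -/
def pr (a : NC α) : NC α →ₗ[ℚ] ℚ := linw (cf a)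

theorem pr_wd_right (a : NC α) (l : List α) : pr a (wd l) = cf a l := by rw [pr, linw_wd]

theorem pr_wd_left (l : List α) (x : NC α) : pr (wd l) x = cf x l := by
  classical
  induction x using nc_induction with
  | hw m =>
    rw [pr_wd_right, cf_wd, cf_wd]
    by_cases h : l = m
    · rw [if_pos h, if_pos h.symm]
    · rw [if_neg h, if_neg (fun h' => h h'.symm)]
  | zero => simp
  | add a b ha hb => rw [map_add, cf_add, ha, hb]
  | smul c a ha => rw [map_smul, cf_smul, ha, smul_eq_mul]

theorem pr_add_left (a b x : NC α) : pr (a + b) x = pr a x + pr b x := by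
  have : pr (a + b) = pr a + pr b := by
    apply lin_ext
    intro l
    rw [LinearMap.add_apply, pr_wd_right, pr_wd_right, pr_wd_right, cf_add]
  rw [this]; rfl

theorem pr_smul_left (c : ℚ) (a x : NC α) : pr (c • a) x = c * pr a x := by
  have : pr (c • a) = c • pr a := by
    apply lin_ext
    intro l
    rw [LinearMap.smul_apply, pr_wd_right, pr_wd_right, cf_smul, smul_eq_mul]
  rw [this]; rfl

theorem pr_zero_left (x : NC α) : pr 0 x = 0 := by
  have h := pr_smul_left 0 (0 : NC α) x
  rwa [zero_smul, zero_mul] at h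

theorem pr_symm (a x : NC α) : pr a x = pr x a := by
  induction a using nc_induction with
  | hw l => rw [pr_wd_left, pr_wd_right]
  | zero => rw [pr_zero_left, map_zero]
  | add a b ha hb => rw [pr_add_left, map_add, ha, hb]
  | smul c a ha => rw [pr_smul_left, map_smul, ha, smul_eq_mul]

theorem pr_ext {x y : NC α} (h : ∀ a, pr a x = pr a y) : x = y := by
  apply cf_ext
  intro l
  have := h (wd l)
  rwa [pr_wd_left, pr_wd_left] at this

/-- The transposed map. -/
def tr (L : NC α →ₗ[ℚ] NC β) (hL : ∀ l' : List β, {l : List α | cf (L (wd l)) l' ≠ 0}.Finite) :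
    NC β →ₗ[ℚ] NC α :=
  linw (fun l' => ∑ l ∈ (hL l').toFinset, cf (L (wd l)) l' • wd l)

theorem cf_tr_wd (L : NC α →ₗ[ℚ] NC β)
    (hL : ∀ l' : List β, {l : List α | cf (L (wd l)) l' ≠ 0}.Finite) (l' : List β) (l : List α) :
    cf (tr L hL (wd l')) l = cf (L (wd l)) l' := by
  classical
  rw [tr, linw_wd, cf_sum]
  simp only [cf_smul, cf_wd, mul_ite, mul_one, mul_zero]
  rw [Finset.sum_ite_eq']
  split_ifs with h
  · rfl
  · rw [Set.Finite.mem_toFinset, Set.mem_ofPred_eq, not_not] at h
    exact h.symm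

theorem pr_tr (L : NC α →ₗ[ℚ] NC β)
    (hL : ∀ l' : List β, {l : List α | cf (L (wd l)) l' ≠ 0}.Finite) (a : NC α) (b : NC β) :
    pr a (tr L hL b) = pr (L a) b := by
  induction a using nc_induction with
  | hw l =>
    induction b using nc_induction with
    | hw l' => rw [pr_wd_left, cf_tr_wd, pr_wd_right]
    | zero => simp
    | add x y hx hy => rw [map_add, map_add, map_add, hx, hy]
    | smul c x hx => rw [map_smul, map_smul, map_smul, hx]
  | zero => rw [map_zero, pr_zero_left, pr_zero_left]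
  | add x y hx hy => rw [pr_add_left, map_add, pr_add_left, hx, hy]
  | smul c x hx => rw [pr_smul_left, map_smul, pr_smul_left, hx]

/-! ### Tensors -/

/-- The pairing of a tensor with a pair of words. -/
def tg (a b : List α) : NC α ⊗[ℚ] NC α →ₗ[ℚ] ℚ :=
  LinearMap.mul' ℚ ℚ ∘ₗ TensorProduct.map (cfL a) (cfL b)

/-- The pairing of a tensor with `x ⊗ y`. -/
def prr (x y : NC α) : NC α ⊗[ℚ] NC α →ₗ[ℚ] ℚ :=
  LinearMap.mul' ℚ ℚ ∘ₗ TensorProduct.map (pr x) (pr y)

theorem tg_tmul (u v : List α) (a b : NC α) : tg u v (a ⊗ₜ[ℚ] b) = cf a u * cf b v := by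
  simp only [tg, LinearMap.comp_apply, TensorProduct.map_tmul, LinearMap.mul'_apply]
  rfl

theorem prr_tmul (x y a b : NC α) : prr x y (a ⊗ₜ[ℚ] b) = pr x a * pr y b := by
  simp only [prr, LinearMap.comp_apply, TensorProduct.map_tmul, LinearMap.mul'_apply]

theorem prr_wd (u v : List α) (z : NC α ⊗[ℚ] NC α) : prr (wd u) (wd v) z = tg u v z := by
  induction z using TensorProduct.induction_on with
  | zero => simp
  | tmul a b => rw [prr_tmul, tg_tmul, pr_wd_left, pr_wd_left]
  | add a b ha hb => rw [map_add, map_add, ha, hb]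

theorem prr_add_left (x x' y : NC α) (z : NC α ⊗[ℚ] NC α) :
    prr (x + x') y z = prr x y z + prr x' y z := by
  induction z using TensorProduct.induction_on with
  | zero => simp
  | tmul a b => rw [prr_tmul, prr_tmul, prr_tmul, pr_add_left, add_mul]
  | add a b ha hb => rw [map_add, map_add, map_add, ha, hb]; ring

theorem prr_add_right (x y y' : NC α) (z : NC α ⊗[ℚ] NC α) :
    prr x (y + y') z = prr x y z + prr x y' z := by
  induction z using TensorProduct.induction_on with
  | zero => simp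
  | tmul a b => rw [prr_tmul, prr_tmul, prr_tmul, pr_add_left, mul_add]
  | add a b ha hb => rw [map_add, map_add, map_add, ha, hb]; ring

theorem prr_smul_left (c : ℚ) (x y : NC α) (z : NC α ⊗[ℚ] NC α) :
    prr (c • x) y z = c * prr x y z := by
  induction z using TensorProduct.induction_on with
  | zero => simp
  | tmul a b => rw [prr_tmul, prr_tmul, pr_smul_left]; ring
  | add a b ha hb => rw [map_add, map_add, ha, hb]; ring

theorem prr_smul_right (c : ℚ) (x y : NC α) (z : NC α ⊗[ℚ] NC α) :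
    prr x (c • y) z = c * prr x y z := by
  induction z using TensorProduct.induction_on with
  | zero => simp
  | tmul a b => rw [prr_tmul, prr_tmul, pr_smul_left]; ring
  | add a b ha hb => rw [map_add, map_add, ha, hb]; ring

theorem prr_zero_left (y : NC α) (z : NC α ⊗[ℚ] NC α) : prr 0 y z = 0 := by
  have h := prr_smul_left 0 (0 : NC α) y z
  rwa [zero_smul, zero_mul] at h

theorem prr_zero_right (x : NC α) (z : NC α ⊗[ℚ] NC α) : prr x 0 z = 0 := by
  have h := prr_smul_right 0 x (0 : NC α) z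
  rwa [zero_smul, zero_mul] at h

/-- `L ⊗ 1 + 1 ⊗ L`. -/
def LTg (L : NC α →ₗ[ℚ] NC α) : NC α ⊗[ℚ] NC α →ₗ[ℚ] NC α ⊗[ℚ] NC α :=
  TensorProduct.map L LinearMap.id + TensorProduct.map LinearMap.id L

theorem LTg_tmul (L : NC α →ₗ[ℚ] NC α) (a b : NC α) :
    LTg L (a ⊗ₜ[ℚ] b) = L a ⊗ₜ[ℚ] b + a ⊗ₜ[ℚ] L b := by
  simp [LTg]

theorem LTg_mul {L : NC α →ₗ[ℚ] NC α} (hL : ∀ p q, L (p * q) = L p * q + p * L q)
    (x y : NC α ⊗[ℚ] NC α) : LTg L (x * y) = LTg L x * y + x * LTg L y := by
  induction x using TensorProduct.induction_on with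
  | zero => simp
  | tmul a b =>
    induction y using TensorProduct.induction_on with
    | zero => simp
    | tmul c d =>
      rw [Algebra.TensorProduct.tmul_mul_tmul, LTg_tmul, LTg_tmul, LTg_tmul, hL, hL, add_mul,
        mul_add, Algebra.TensorProduct.tmul_mul_tmul, Algebra.TensorProduct.tmul_mul_tmul,
        Algebra.TensorProduct.tmul_mul_tmul, Algebra.TensorProduct.tmul_mul_tmul,
        TensorProduct.add_tmul, TensorProduct.tmul_add]
      abel
    | add u v hu hv => rw [mul_add, map_add, hu, hv, map_add]; noncomm_ring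
  | add u v hu hv => rw [add_mul, map_add, hu, hv, map_add]; noncomm_ring

theorem prr_LTg {s T : NC α →ₗ[ℚ] NC α} (h : ∀ a x, pr a (T x) = pr (s a) x) (x y : NC α)
    (z : NC α ⊗[ℚ] NC α) : prr x y (LTg s z) = prr (T x) y z + prr x (T y) z := by
  have h' : ∀ x a, pr x (s a) = pr (T x) a := by
    intro x a
    rw [pr_symm x, ← h, pr_symm]
  induction z using TensorProduct.induction_on with
  | zero => simp
  | tmul a b => rw [LTg_tmul, map_add, prr_tmul, prr_tmul, prr_tmul, prr_tmul, h', h']
  | add a b ha hb => rw [map_add, map_add, ha, hb, map_add, map_add]; ring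

theorem prr_dual {Δ : NC α →ₗ[ℚ] NC α ⊗[ℚ] NC α} {μ : NC α →ₗ[ℚ] NC α →ₗ[ℚ] NC α}
    (hd : ∀ (u v : List α) (c : NC α), tg u v (Δ c) = pr c (μ (wd u) (wd v))) (x y c : NC α) :
    prr x y (Δ c) = pr c (μ x y) := by
  induction x using nc_induction with
  | hw u =>
    induction y using nc_induction with
    | hw v => rw [prr_wd, hd]
    | zero => rw [prr_zero_right, map_zero, map_zero]
    | add a b ha hb => rw [prr_add_right, ha, hb, map_add, map_add]
    | smul r a ha => rw [prr_smul_right, ha, map_smul, map_smul, smul_eq_mul]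
  | zero => rw [prr_zero_left, map_zero, LinearMap.zero_apply, map_zero]
  | add a b ha hb => rw [prr_add_left, ha, hb, map_add, LinearMap.add_apply, map_add]
  | smul r a ha => rw [prr_smul_left, ha, map_smul, LinearMap.smul_apply, map_smul, smul_eq_mul]

/-- The transpose of a coderivation is a derivation. -/
theorem deriv_of_coder {Δ : NC α →ₗ[ℚ] NC α ⊗[ℚ] NC α} {μ : NC α →ₗ[ℚ] NC α →ₗ[ℚ] NC α}
    (hd : ∀ (u v : List α) (c : NC α), tg u v (Δ c) = pr c (μ (wd u) (wd v)))
    {s T : NC α →ₗ[ℚ] NC α} (h : ∀ a x, pr a (T x) = pr (s a) x)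
    (hs : ∀ c, Δ (s c) = LTg s (Δ c)) (x y : NC α) : T (μ x y) = μ (T x) y + μ x (T y) := by
  apply pr_ext
  intro c
  rw [h, ← prr_dual hd, hs, prr_LTg h, prr_dual hd, prr_dual hd, map_add]

end pairing

/-! ### The shuffle and stuffle products as bilinear maps -/

/-- The shuffle product. -/
def muX : NC (Fin 2) →ₗ[ℚ] NC (Fin 2) →ₗ[ℚ] NC (Fin 2) :=
  linw (fun u => linw (fun v => shE wd u v))

/-- The stuffle product. -/
def muY : NC ℕ+ →ₗ[ℚ] NC ℕ+ →ₗ[ℚ] NC ℕ+ :=
  linw (fun u => linw (fun v => stE wd u v))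

theorem muX_wd (u v : List (Fin 2)) : muX (wd u) (wd v) = shE wd u v := by
  rw [muX, linw_wd, linw_wd]

theorem muY_wd (u v : List ℕ+) : muY (wd u) (wd v) = stE wd u v := by
  rw [muY, linw_wd, linw_wd]

section
variable {M : Type*} [AddCommGroup M] [Module ℚ M]

theorem map_muX (F : NC (Fin 2) →ₗ[ℚ] M) (u v : List (Fin 2)) :
    F (muX (wd u) (wd v)) = shE (fun w => F (wd w)) u v := by
  rw [muX_wd]
  exact (shE_map F.toAddMonoidHom _ wd u v le_rfl).symm

theorem map_muY (F : NC ℕ+ →ₗ[ℚ] M) (u v : List ℕ+) :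
    F (muY (wd u) (wd v)) = stE (fun w => F (wd w)) u v := by
  rw [muY_wd]
  exact (stE_map F.toAddMonoidHom _ wd u v le_rfl).symm

end

theorem dualX (u v : List (Fin 2)) (c : NC (Fin 2)) :
    tg u v (shCop.toLinearMap c) = pr c (muX (wd u) (wd v)) := by
  rw [map_muX]
  simp only [pr_wd_right]
  exact tcX_shCop c u v

theorem dualY (u v : List ℕ+) (c : NC ℕ+) :
    tg u v (stuffleCoproduct.toLinearMap c) = pr c (muY (wd u) (wd v)) := by
  rw [map_muY]
  simp only [pr_wd_right]
  exact dd_eq_stE _ u v le_rfl c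

end

end Pool.Agent.ECL
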