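import Mathlib
import Pool.Agent.ECL.Racinet
import Pool.Agent.ECL.Transpose
import Pool.Agent.ECG.Induct

/-!
# The action of `exp(r s_ψ)` on points of the double shuffle scheme
-/

set_option autoImplicit false

open scoped TensorProduct

namespace Pool.Agent.ECL

open Pool.Agent.H4DM Pool.Agent.ECG

noncomputable section

/-! ### Operators lowering the weight -/

/-- `T` lowers the weight by `m`. -/
structure Low {α : Type} (w : α → ℕ) (m : ℕ) (T : NC α →ₗ[ℚ] NC α) : Prop where
  zero : ∀ l : List α, wt w l < m → T (wd l) = 0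
  hom : ∀ l : List α, m ≤ wt w l → Hg w (wt w l - m) (T (wd l))

section low
variable {α : Type} {w : α → ℕ} {m : ℕ} {T : NC α →ₗ[ℚ] NC α}

theorem Low.eq_zero (h : Low w m T) {n : ℕ} {a : NC α} (ha : Hg w n a) (hn : n < m) : T a = 0 := by
  have : T ∘ₗ comp w n = 0 := by
    apply lin_ext
    intro l
    rw [LinearMap.comp_apply, comp_wd, LinearMap.zero_apply]
    split_ifs with hl
    · exact h.zero l (by omega)
    · rw [map_zero]
  have h2 := LinearMap.congr_fun this a
  rwa [LinearMap.comp_apply, ha.comp_eq] at h2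

theorem Low.hg (h : Low w m T) {n : ℕ} {a : NC α} (ha : Hg w n a) (hn : m ≤ n) :
    Hg w (n - m) (T a) := by
  apply Hg_of_comp
  have : comp w (n - m) ∘ₗ T ∘ₗ comp w n = T ∘ₗ comp w n := by
    apply lin_ext
    intro l
    simp only [LinearMap.comp_apply]
    rw [comp_wd]
    split_ifs with hl
    · have := h.hom l (by omega)
      rw [hl] at this
      exact this.comp_eq
    · rw [map_zero, map_zero]
  have h2 := LinearMap.congr_fun this a
  simp only [LinearMap.comp_apply] at h2
  rwa [ha.comp_eq] at h2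

theorem Low.pow (h : Low w m T) (hm : 1 ≤ m) (k : ℕ) : ∀ (n : ℕ) (a : NC α), Hg w n a → n < k →
    (T ^ k) a = 0 := by
  induction k with
  | zero => intro n a _ hn; omega
  | succ k ih =>
    intro n a ha hn
    rw [pow_succ, Module.End.mul_apply]
    by_cases hnm : n < m
    · rw [h.eq_zero ha hnm, map_zero]
    · exact ih (n - m) _ (h.hg ha (by omega)) (by omega)

end low

/-! ### Differential equations -/

section ode
open Polynomial
variable {A : Type*} [AddCommGroup A] [Module ℚ A]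

theorem mult_of_ode (μ : A →ₗ[ℚ] A →ₗ[ℚ] A) (T : A →ₗ[ℚ] A)
    (hT : ∀ a b, T (μ a b) = μ (T a) b + μ a (T b)) (r : ℝ) (F : A →ₗ[ℚ] ℝ[X])
    (hF : ∀ a, derivative (F a) = C r * F (T a))
    (h0 : ∀ a b, (F (μ a b)).coeff 0 = (F a).coeff 0 * (F b).coeff 0) (a b : A) :
    F (μ a b) = F a * F b := by
  have key : ∀ (k : ℕ) (a b : A), (F (μ a b)).coeff k = (F a * F b).coeff k := by
    intro k
    induction k with
    | zero => intro a b; rw [h0, Polynomial.mul_coeff_zero]
    | succ k ih =>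
      intro a b
      have h1 := Polynomial.coeff_derivative (F (μ a b)) k
      have h2 := Polynomial.coeff_derivative (F a * F b) k
      have h3 : (derivative (F (μ a b))).coeff k = (derivative (F a * F b)).coeff k := by
        rw [hF, hT, map_add, Polynomial.derivative_mul, hF, hF, Polynomial.coeff_C_mul,
          Polynomial.coeff_add, ih, ih, Polynomial.coeff_add, mul_assoc (C r), Polynomial.coeff_C_mul,
          ← mul_assoc (F a), mul_comm (F a) (C r), mul_assoc (C r), Polynomial.coeff_C_mul]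
        ring
      rw [h1, h2] at h3
      have hk : ((k : ℝ) + 1) ≠ 0 := by positivity
      exact mul_right_cancel₀ hk h3
  ext k
  exact key k a b

end ode

section flow
open Polynomial
variable {α : Type} (w : α → ℕ)

/-- `a ↦ ∑_k (r^k/k!) φ(T^k a) X^k`. -/
def Fl (T : NC α →ₗ[ℚ] NC α) (r : ℝ) (φ : NC α →ₗ[ℚ] ℝ) : NC α →ₗ[ℚ] ℝ[X] :=
  linw (fun l => ∑ k ∈ Finset.range (wt w l + 1),
    Polynomial.monomial k (r ^ k / (k.factorial : ℝ) * φ ((T ^ k) (wd l))))

variable {w} {m : ℕ} {T : NC α →ₗ[ℚ] NC α}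

theorem coeff_Fl (h : Low w m T) (hm : 1 ≤ m) (r : ℝ) (φ : NC α →ₗ[ℚ] ℝ) (a : NC α) (k : ℕ) :
    (Fl w T r φ a).coeff k = r ^ k / (k.factorial : ℝ) * φ ((T ^ k) a) := by
  induction a using nc_induction with
  | hw l =>
    rw [Fl, linw_wd, Polynomial.finsetSum_coeff]
    simp only [Polynomial.coeff_monomial]
    rw [Finset.sum_ite_eq']
    split_ifs with hk
    · rfl
    · rw [Finset.mem_range, not_lt] at hk
      rw [h.pow hm k (wt w l) (wd l) (Hg_wd l) (by omega), map_zero, mul_zero]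
  | zero => simp
  | add a b ha hb => rw [map_add, Polynomial.coeff_add, ha, hb, map_add, map_add, mul_add]
  | smul c a ha =>
    rw [map_smul, Polynomial.coeff_smul, ha, map_smul, map_smul, Rat.smul_def, Rat.smul_def]
    ring

theorem derivative_Fl (h : Low w m T) (hm : 1 ≤ m) (r : ℝ) (φ : NC α →ₗ[ℚ] ℝ) (a : NC α) :
    derivative (Fl w T r φ a) = C r * Fl w T r φ (T a) := by
  ext k
  rw [Polynomial.coeff_derivative, Polynomial.coeff_C_mul, coeff_Fl h hm, coeff_Fl h hm, pow_succ T,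
    Module.End.mul_apply, pow_succ, Nat.factorial_succ]
  have h1 : ((k : ℝ) + 1) ≠ 0 := by positivity
  have h2 : (k.factorial : ℝ) ≠ 0 := by positivity
  push_cast
  field_simp

end flow

/-! ### The operators attached to `ψ` -/

theorem finite_wordsX (n : ℕ) : {l : List (Fin 2) | l.length ≤ n}.Finite :=
  List.finite_length_le (Fin 2) n

theorem finite_wordsY (n : ℕ) : {t : List ℕ+ | wt wY t ≤ n}.Finite := by
  have h := (finite_wordsX n).preimage (yw_injective.injOn (s := yw ⁻¹' {l | l.length ≤ n}))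
  refine h.subset ?_
  intro t ht
  simp only [Set.mem_preimage, Set.mem_ofPred_eq] at ht ⊢
  rw [length_yw]; exact ht

section ops
variable {ψ : NC (Fin 2)} {m : ℕ}

theorem sOp_len (hom : Hg wX m ψ) {l l' : List (Fin 2)} (h : cf (sOp ψ (wd l)) l' ≠ 0) :
    l'.length = m + l.length := by
  have h1 := Hg_sOp hom (Hg_wd (w := wX) l) _ h
  rwa [wt_wX, wt_wX] at h1

theorem rowX (hom : Hg wX m ψ) (l' : List (Fin 2)) :
    {l : List (Fin 2) | cf (sOp ψ (wd l)) l' ≠ 0}.Finite := by
  refine (finite_wordsX l'.length).subset ?_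
  intro l hl
  simp only [Set.mem_ofPred_eq] at hl ⊢
  have := sOp_len hom hl
  omega

theorem Hg_piY {n : ℕ} {a : NC (Fin 2)} (h : Hg wX n a) : Hg wY n (piY a) := by
  intro t ht
  rw [piY_eq, cf_Th, List.replicate_zero, List.append_nil] at ht
  have := h _ ht
  rwa [wt_wX, length_yw] at this

theorem Hg_corr (hm : 2 ≤ m) (hom : Hg wX m ψ) : Hg wY m (corr ψ) := by
  rw [Pool.Agent.H44DM.corr_even hm hom]
  apply Hg.smul
  have := Hg_wd (w := wY) (List.replicate m (1 : ℕ+))
  rw [wt_replicate] at this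
  simpa using this

theorem Hg_Sst (hm : 2 ≤ m) (hom : Hg wX m ψ) (t : List ℕ+) :
    Hg wY (m + wt wY t) (Sst ψ (wd t)) := by
  have h1 : Sst ψ (wd t) = piY (sOp ψ (wd (yw t))) + corr ψ * wd t := by
    conv_lhs => rw [← piY_jA (wd t), Sst_piY, piY_jA, jA_wd]
  rw [h1]
  apply Hg.add
  · apply Hg_piY
    have := Hg_sOp hom (Hg_wd (w := wX) (yw t))
    rwa [wt_wX, length_yw] at this
  · exact (Hg_corr hm hom).mul (Hg_wd t)

theorem rowY (hm : 2 ≤ m) (hom : Hg wX m ψ) (t' : List ℕ+) :
    {t : List ℕ+ | cf (Sst ψ (wd t)) t' ≠ 0}.Finite := by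
  refine (finite_wordsY (wt wY t')).subset ?_
  intro t ht
  simp only [Set.mem_ofPred_eq] at ht ⊢
  have := Hg_Sst hm hom t _ ht
  omega

/-- The transpose of `s_ψ`. -/
def TX (hom : Hg wX m ψ) : NC (Fin 2) →ₗ[ℚ] NC (Fin 2) := tr (sOp ψ) (rowX hom)

/-- The transpose of `S_ψ`. -/
def TY (hm : 2 ≤ m) (hom : Hg wX m ψ) : NC ℕ+ →ₗ[ℚ] NC ℕ+ := tr (Sst ψ) (rowY hm hom)

theorem low_TX (hom : Hg wX m ψ) : Low wX m (TX hom) where
  zero l hl := by
    apply cf_ext
    intro l'
    rw [TX, cf_tr_wd, cf_zero]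
    by_contra hne
    have := sOp_len hom hne
    rw [wt_wX] at hl
    omega
  hom l hl := by
    intro l' hne
    rw [TX, cf_tr_wd] at hne
    have := sOp_len hom hne
    rw [wt_wX, wt_wX]
    omega

theorem low_TY (hm : 2 ≤ m) (hom : Hg wX m ψ) : Low wY m (TY hm hom) where
  zero l hl := by
    apply cf_ext
    intro l'
    rw [TY, cf_tr_wd, cf_zero]
    by_contra hne
    have := Hg_Sst hm hom l' _ hne
    omega
  hom l hl := by
    intro l' hne
    rw [TY, cf_tr_wd] at hne
    have := Hg_Sst hm hom l' _ hne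
    omega

end ops

/-! ### Derivations of the shuffle and the stuffle product -/

section
attribute [local instance] LieRing.ofAssociativeRing

theorem shCop_lie {f : NC (Fin 2)} (hf : f ∈ Lie01) : shCop f = f ⊗ₜ[ℚ] 1 + 1 ⊗ₜ[ℚ] f := by
  induction hf using LieSubalgebra.lieSpan_induction with
  | mem x hx =>
    rcases hx with rfl | hx
    · exact shCop_letter 0
    · rw [Set.mem_singleton_iff] at hx
      subst hx
      exact shCop_letter 1
  | zero => simp
  | add a b _ _ ha hb =>
    rw [map_add, ha, hb, TensorProduct.add_tmul, TensorProduct.tmul_add]; abel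
  | smul r a _ ha =>
    rw [map_smul, ha, smul_add, TensorProduct.smul_tmul', TensorProduct.tmul_smul]
  | lie a b _ _ ha hb =>
    rw [LieRing.of_associative_ring_bracket, map_sub, map_mul, map_mul, ha, hb]
    simp only [mul_add, add_mul, Algebra.TensorProduct.tmul_mul_tmul, mul_one, one_mul,
      TensorProduct.sub_tmul, TensorProduct.tmul_sub]
    abel

end

theorem LTg_add {α : Type} (L L' : NC α →ₗ[ℚ] NC α) (x : NC α ⊗[ℚ] NC α) :
    LTg (L + L') x = LTg L x + LTg L' x := by
  induction x using TensorProduct.induction_on with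
  | zero => simp
  | tmul a b =>
    rw [LTg_tmul, LTg_tmul, LTg_tmul, LinearMap.add_apply, LinearMap.add_apply,
      TensorProduct.add_tmul, TensorProduct.tmul_add]
    abel
  | add u v hu hv => rw [map_add, map_add, map_add, hu, hv]; abel

theorem LTg_mulLeft {α : Type} (P : NC α) (x : NC α ⊗[ℚ] NC α) :
    LTg (LinearMap.mulLeft ℚ P) x = (P ⊗ₜ[ℚ] 1 + 1 ⊗ₜ[ℚ] P) * x := by
  induction x using TensorProduct.induction_on with
  | zero => simp
  | tmul a b =>
    rw [LTg_tmul, add_mul, Algebra.TensorProduct.tmul_mul_tmul,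
      Algebra.TensorProduct.tmul_mul_tmul, one_mul, one_mul]
    rfl
  | add u v hu hv => rw [map_add, hu, hv, mul_add]

theorem shCop_ihDer {f : NC (Fin 2)} (hf : f ∈ Lie01) (h : NC (Fin 2)) :
    shCop (ihDer f h) = LTg (ihDer f) (shCop h) := by
  have : shCop.toLinearMap ∘ₗ ihDer f = LTg (ihDer f) ∘ₗ shCop.toLinearMap := by
    apply leibniz_ext shCop
    · intro p q
      simp only [LinearMap.comp_apply, AlgHom.toLinearMap_apply, ihDer_mul, map_add, map_mul]
    · intro p q
      simp only [LinearMap.comp_apply, AlgHom.toLinearMap_apply, map_mul]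
      exact LTg_mul (ihDer_mul f) _ _
    · intro a
      simp only [LinearMap.comp_apply, AlgHom.toLinearMap_apply]
      have hlie : ihDer f (wd [a]) ∈ Lie01 := by
        apply ihDer_mem hf
        fin_cases a
        · exact x0_mem
        · exact x1_mem
      rw [shCop_lie hlie, shCop_letter, map_add, LTg_tmul, LTg_tmul, ihDer_one]
      simp
  exact LinearMap.congr_fun this h

theorem shCop_sOp {f : NC (Fin 2)} (hf : f ∈ Lie01) (h : NC (Fin 2)) :
    shCop (sOp f h) = LTg (sOp f) (shCop h) := by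
  rw [sOp, LTg_add, LinearMap.add_apply, map_add, shCop_ihDer hf, LTg_mulLeft,
    LinearMap.mulLeft_apply, map_mul, shCop_lie hf]

section ops2
variable {ψ : NC (Fin 2)} {m : ℕ}

theorem TX_deriv (hψ : ψ ∈ Lie01) (hom : Hg wX m ψ) (x y : NC (Fin 2)) :
    TX hom (muX x y) = muX (TX hom x) y + muX x (TX hom y) := by
  apply deriv_of_coder (Δ := shCop.toLinearMap) dualX (s := sOp ψ)
  · intro a x; exact pr_tr _ _ a x
  · intro c; exact shCop_sOp hψ c

theorem TY_deriv (hψ : IsDM ψ) (hm : 2 ≤ m) (hom : Hg wX m ψ) (x y : NC ℕ+) :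
    TY hm hom (muY x y) = muY (TY hm hom x) y + muY x (TY hm hom y) := by
  apply deriv_of_coder (Δ := stuffleCoproduct.toLinearMap) dualY (s := Sst ψ)
  · intro a x; exact pr_tr _ _ a x
  · intro c; exact Delta_Sst hψ c

end ops2

/-! ### Comparison of the two operators -/

/-- Strip an initial `y₁`. -/
def pW : NC ℕ+ →ₗ[ℚ] NC ℕ+ := lq1 (1 : ℕ+)

theorem pr_pW (a b : NC ℕ+) : pr a (pW b) = pr (wd [1] * a) b := by
  induction a using nc_induction with
  | hw l => rw [pr_wd_left, pW, cf_lq1, ← wd_cons, pr_wd_left]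
  | zero => rw [pr_zero_left, mul_zero, pr_zero_left]
  | add x y hx hy => rw [pr_add_left, mul_add, pr_add_left, hx, hy]
  | smul c x hx => rw [pr_smul_left, mul_smul_comm, pr_smul_left, hx]

theorem pr_pW_pow (k : ℕ) (a b : NC ℕ+) :
    pr a ((pW ^ k) b) = pr (wd (List.replicate k 1) * a) b := by
  induction k generalizing b with
  | zero => rw [pow_zero, List.replicate_zero, wd_nil, one_mul]; rfl
  | succ k ih =>
    rw [pow_succ, Module.End.mul_apply, ih, pr_pW, ← mul_assoc, ← wd_append, List.replicate_succ]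
    rfl

theorem pr_jA (a : NC (Fin 2)) (b : NC ℕ+) : pr a (jA b) = pr (piY a) b := by
  induction b using nc_induction with
  | hw t =>
    rw [jA_wd, pr_wd_right, pr_wd_right, piY_eq, cf_Th, List.replicate_zero, List.append_nil]
  | zero => simp
  | add x y hx hy => rw [map_add, map_add, map_add, hx, hy]
  | smul c x hx => rw [map_smul, map_smul, map_smul, hx]

section ops3
variable {ψ : NC (Fin 2)} {m : ℕ}

/-- The coefficient of the correction term. -/
def cc (ψ : NC (Fin 2)) (m : ℕ) : ℚ :=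
  (-1) ^ (m - 1) / m * cf ψ (List.replicate (m - 1) 0 ++ [1])

theorem corr_eq (hm : 2 ≤ m) (hom : Hg wX m ψ) :
    corr ψ = cc ψ m • wd (List.replicate m 1) := Pool.Agent.H44DM.corr_even hm hom

theorem jA_TY (hm : 2 ≤ m) (hom : Hg wX m ψ) (b : NC ℕ+) :
    jA (TY hm hom b) = TX hom (jA b) + cc ψ m • jA ((pW ^ m) b) := by
  apply pr_ext
  intro a
  rw [map_add, map_smul, pr_jA, TY, pr_tr, Sst_piY, pr_add_left, TX, pr_tr, pr_jA, pr_jA,
    pr_pW_pow, corr_eq hm hom, smul_mul_assoc, pr_smul_left, smul_eq_mul]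

theorem Sst_y1_mul (f : NC (Fin 2)) (u : NC ℕ+) : Sst f (wd [1] * u) = wd [1] * Sst f u := by
  rw [Sst_eq, Sst_eq, delT_mul, delT_y1, zero_mul, zero_add, ← mul_assoc (corr f), corr_comm]
  noncomm_ring

theorem pW_TY (hm : 2 ≤ m) (hom : Hg wX m ψ) (b : NC ℕ+) :
    pW (TY hm hom b) = TY hm hom (pW b) := by
  apply pr_ext
  intro a
  rw [pr_pW, TY, pr_tr, pr_tr, pr_pW, Sst_y1_mul]

end ops3

/-! ### The functional `Λ(y₁) π_Y(Φ)` with polynomial values -/

section stg
open Polynomial
variable {R : Type*} [CommRing R]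

/-- The functional `Λ(y₁) π_Y(F)` on words. -/
def stG (F : List (Fin 2) → R) : (ℕ → R) → List ℕ+ → R
  | Λ, [] => Λ 0 * F []
  | Λ, n :: t => Λ 0 * F (yw (n :: t)) + if n = 1 then stG F (fun i => Λ (i + 1)) t else 0

theorem stG_eq_stv (Φ : List (Fin 2) → ℝ) (t : List ℕ+) : ∀ Λ : ℕ → ℝ, stG Φ Λ t = stv Φ Λ t := by
  induction t with
  | nil => intro Λ; rfl
  | cons n t ih => intro Λ; rw [stG, stv, ih]

theorem stG_map {S : Type*} [CommRing S] (f : R →+* S) (F : List (Fin 2) → R) (t : List ℕ+) :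
    ∀ Λ : ℕ → R, f (stG F Λ t) = stG (fun l => f (F l)) (fun n => f (Λ n)) t := by
  induction t with
  | nil => intro Λ; rw [stG, stG, map_mul]
  | cons n t ih =>
    intro Λ
    rw [stG, stG, map_add, map_mul]
    split_ifs
    · rw [ih]
    · rw [map_zero]

/-- `Λ(y₁) π_Y(F)` as a linear functional. -/
def SG (F : NC (Fin 2) →ₗ[ℚ] ℝ[X]) (Λ : ℕ → ℝ[X]) : NC ℕ+ →ₗ[ℚ] ℝ[X] :=
  linw (stG (fun l => F (wd l)) Λ)

theorem SG_wd (F : NC (Fin 2) →ₗ[ℚ] ℝ[X]) (Λ : ℕ → ℝ[X]) (t : List ℕ+) :
    SG F Λ (wd t) = stG (fun l => F (wd l)) Λ t := by rw [SG, linw_wd]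

theorem pW_nil : pW (wd []) = 0 := lq1_nil 1

theorem pW_cons (n : ℕ+) (t : List ℕ+) : pW (wd (n :: t)) = if n = 1 then wd t else 0 :=
  lq1_wd_cons 1 n t

theorem SG_rec (F : NC (Fin 2) →ₗ[ℚ] ℝ[X]) (Λ : ℕ → ℝ[X]) (a : NC ℕ+) :
    SG F Λ a = Λ 0 * F (jA a) + SG F (fun i => Λ (i + 1)) (pW a) := by
  induction a using nc_induction with
  | hw t =>
    rw [SG_wd, jA_wd]
    rcases t with _ | ⟨n, t⟩
    · rw [pW_nil, map_zero, add_zero]; rfl
    · rw [stG, pW_cons]
      split_ifs
      · rw [SG_wd]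
      · rw [map_zero]
  | zero => simp
  | add a b ha hb => simp only [map_add, ha, hb]; ring
  | smul c a ha =>
    simp only [map_smul, ha]
    rw [smul_add, mul_smul_comm]

theorem SG_smul (F : NC (Fin 2) →ₗ[ℚ] ℝ[X]) (x : ℝ[X]) (t : List ℕ+) : ∀ Λ : ℕ → ℝ[X],
    SG F (fun n => x * Λ n) (wd t) = x * SG F Λ (wd t) := by
  induction t with
  | nil => intro Λ; rw [SG_wd, SG_wd, stG, stG]; ring
  | cons n t ih =>
    intro Λ
    rw [SG_wd, SG_wd, stG, stG]
    simp only [SG_wd] at ih
    split_ifs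
    · rw [ih]; ring
    · ring

theorem SG_smul' (F : NC (Fin 2) →ₗ[ℚ] ℝ[X]) (x : ℝ[X]) (Λ : ℕ → ℝ[X]) (a : NC ℕ+) :
    SG F (fun n => x * Λ n) a = x * SG F Λ a := by
  induction a using nc_induction with
  | hw t => exact SG_smul F x t Λ
  | zero => simp
  | add a b ha hb => rw [map_add, map_add, ha, hb, mul_add]
  | smul c a ha => rw [map_smul, map_smul, ha, mul_smul_comm]

theorem SG_shift (F : NC (Fin 2) →ₗ[ℚ] ℝ[X]) (Λ : ℕ → ℝ[X]) (k : ℕ) : ∀ a : NC ℕ+,
    SG F (fun n => if n < k then 0 else Λ (n - k)) a = SG F Λ ((pW ^ k) a) := by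
  induction k with
  | zero => intro a; simp
  | succ k ih =>
    intro a
    rw [SG_rec, pow_succ, Module.End.mul_apply, ← ih, if_pos (Nat.succ_pos k), zero_mul, zero_add]
    congr 1
    congr 1
    funext i
    by_cases h : i < k
    · rw [if_pos h, if_pos (by omega)]
    · rw [if_neg h, if_neg (by omega)]
      congr 1
      omega

theorem derivative_SG {F : NC (Fin 2) →ₗ[ℚ] ℝ[X]} {T : NC (Fin 2) →ₗ[ℚ] NC (Fin 2)} {r : ℝ}
    (hF : ∀ a, derivative (F a) = C r * F (T a)) {T' : NC ℕ+ →ₗ[ℚ] NC ℕ+}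
    (h1 : ∀ b, T (jA b) = jA (T' b)) (h2 : ∀ b, pW (T' b) = T' (pW b)) (t : List ℕ+) :
    ∀ Λ : ℕ → ℝ[X], derivative (SG F Λ (wd t)) =
      SG F (fun n => derivative (Λ n)) (wd t) + C r * SG F Λ (T' (wd t)) := by
  induction t with
  | nil =>
    intro Λ
    rw [SG_rec F Λ (wd []), SG_rec F _ (wd []), SG_rec F Λ (T' (wd [])), h2, pW_nil, map_zero,
      map_zero, map_zero, map_zero, add_zero, add_zero, add_zero, Polynomial.derivative_mul, hF, h1]
    ring
  | cons n t ih =>
    intro Λ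
    rw [SG_rec F Λ (wd (n :: t)), SG_rec F _ (wd (n :: t)), SG_rec F Λ (T' (wd (n :: t))), h2,
      pW_cons, Polynomial.derivative_add, Polynomial.derivative_mul, hF, h1]
    split_ifs
    · rw [ih]; ring
    · simp only [map_zero]; ring

end stg

/-! ### The correction series -/

section lam
open Polynomial

/-- `Λ(u) exp(x X u^m)`, coefficientwise in `u`. -/
def LX (Λ : ℕ → ℝ) (m : ℕ) (x : ℝ) (n : ℕ) : ℝ[X] :=
  ∑ k ∈ Finset.range (n + 1),
    Polynomial.monomial k (if m * k ≤ n then x ^ k / (k.factorial : ℝ) * Λ (n - m * k) else 0)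

theorem coeff_LX (Λ : ℕ → ℝ) {m : ℕ} (hm : 1 ≤ m) (x : ℝ) (n k : ℕ) :
    (LX Λ m x n).coeff k = if m * k ≤ n then x ^ k / (k.factorial : ℝ) * Λ (n - m * k) else 0 := by
  rw [LX, Polynomial.finsetSum_coeff]
  simp only [Polynomial.coeff_monomial]
  rw [Finset.sum_ite_eq']
  split_ifs with h1 h2 h2
  · rfl
  · rfl
  · exfalso
    rw [Finset.mem_range, not_lt] at h1
    have : k ≤ m * k := Nat.le_mul_of_pos_left k (by omega)
    omega
  · rfl

theorem derivative_LX (Λ : ℕ → ℝ) {m : ℕ} (hm : 1 ≤ m) (x : ℝ) (n : ℕ) :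
    derivative (LX Λ m x n) = C x * (if n < m then 0 else LX Λ m x (n - m)) := by
  ext k
  rw [Polynomial.coeff_derivative, coeff_LX Λ hm, Polynomial.coeff_C_mul]
  by_cases h : n < m
  · have h1 : ¬ m * (k + 1) ≤ n := by rw [mul_add, mul_one]; omega
    rw [if_neg h1, if_pos h, Polynomial.coeff_zero]; ring
  · rw [if_neg h, coeff_LX Λ hm]
    by_cases h2 : m * (k + 1) ≤ n
    · have h3 : m * k ≤ n - m := by rw [mul_add, mul_one] at h2; omega
      have h4 : n - m * (k + 1) = n - m - m * k := by rw [mul_add, mul_one]; omega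
      rw [if_pos h2, if_pos h3, h4, pow_succ, Nat.factorial_succ]
      have h5 : ((k : ℝ) + 1) ≠ 0 := by positivity
      have h6 : (k.factorial : ℝ) ≠ 0 := by positivity
      push_cast
      field_simp
    · have h3 : ¬ m * k ≤ n - m := by rw [mul_add, mul_one] at h2; omega
      rw [if_neg h2, if_neg h3]; ring

theorem LX_lt (Λ : ℕ → ℝ) {m : ℕ} (hm : 1 ≤ m) (x : ℝ) {n : ℕ} (hn : n < m) :
    LX Λ m x n = C (Λ n) := by
  ext k
  rw [coeff_LX Λ hm, Polynomial.coeff_C]
  rcases k with _ | k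
  · simp
  · have : ¬ m * (k + 1) ≤ n := by rw [mul_add, mul_one]; omega
    rw [if_neg this, if_neg (by omega)]

end lam

/-! ### Values of the transposed operator on some words -/

section vals
variable {ψ : NC (Fin 2)} {m : ℕ}

theorem TX_top (hom : Hg wX m ψ) {w : List (Fin 2)} (hw : w.length = m) :
    TX hom (wd w) = cf ψ w • wd [] := by
  classical
  apply cf_ext
  intro l
  rw [TX, cf_tr_wd, cf_smul, cf_wd]
  by_cases hl : l = []
  · subst hl
    rw [if_pos rfl, mul_one, wd_nil, sOp_one]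
  · rw [if_neg (fun h => hl h.symm), mul_zero]
    by_contra hne
    have := sOp_len hom hne
    have h0 : l.length ≠ 0 := fun h => hl (List.length_eq_zero_iff.mp h)
    omega

theorem cf_mul_x0_one (f : NC (Fin 2)) (L : List (Fin 2)) : cf (f * x0) (L ++ [1]) = 0 := by
  rw [x0]
  induction f using nc_induction with
  | hw u =>
    rw [← wd_append, cf_wd, if_neg]
    intro h
    have := (List.append_inj' h rfl).2
    simp at this
  | zero => simp
  | add x y hx hy => rw [add_mul, cf_add, hx, hy, add_zero]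
  | smul c x hx => rw [smul_mul_assoc, cf_smul, hx, mul_zero]

theorem ihDer_x0_pow (f : NC (Fin 2)) (j : ℕ) : ihDer f (x0 ^ j) = 0 := by
  induction j with
  | zero => rw [pow_zero, ihDer_one]
  | succ j ih => rw [pow_succ, ihDer_mul, ih, ihDer_x0]; simp

theorem all_zero_of_wt (l : List (Fin 2)) (h : wt wD l = 0) : l = List.replicate l.length 0 := by
  induction l with
  | nil => rfl
  | cons a l ih =>
    rw [wt_cons] at h
    have ha : a = 0 := by
      apply Fin.ext
      have : wD a = (a : ℕ) := rfl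
      rw [Fin.val_zero]
      omega
    rw [List.length_cons, List.replicate_succ, ha, ← ih (by omega)]

theorem sOp_depth_one (hψ : IsDM ψ) (n : ℕ) (l : List (Fin 2)) (hl : l ≠ []) :
    cf (sOp ψ (wd l)) (List.replicate n 0 ++ [1]) = 0 := by
  by_cases h : wt wD l = 0
  · have h1 := all_zero_of_wt l h
    obtain ⟨j, hj⟩ : ∃ j, l.length = j + 1 := by
      refine ⟨l.length - 1, ?_⟩
      have : l.length ≠ 0 := fun h => hl (List.length_eq_zero_iff.mp h)
      omega
    rw [h1, hj, wd_replicate_zero, sOp_apply, ihDer_x0_pow, add_zero, pow_succ, ← mul_assoc]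
    exact cf_mul_x0_one _ _
  · have h0 := comp0_dm hψ
    have h1 : comp wD 1 (sOp ψ (wd l)) = 0 := by
      rw [sOp_apply, map_add, comp_mul, comp_ihDer_wd h0 l 1 (by omega), add_zero]
      have h2 : comp wD 0 (wd l) = 0 := by rw [comp_wd, if_neg h]
      simp [Finset.Nat.antidiagonal_succ, h0, h2]
    have h3 : cf (comp wD 1 (sOp ψ (wd l))) (List.replicate n 0 ++ [1]) = 0 := by rw [h1]; rfl
    rwa [cf_comp, if_pos (by simp [wt])] at h3

theorem TX_depth_one (hψ : IsDM ψ) (hom : Hg wX m ψ) {n : ℕ} (hn : n + 1 ≠ m) :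
    TX hom (wd (List.replicate n 0 ++ [1])) = 0 := by
  apply cf_ext
  intro l
  rw [TX, cf_tr_wd, cf_zero]
  by_cases hl : l = []
  · subst hl
    rw [wd_nil, sOp_one]
    by_contra hne
    have := hom _ hne
    rw [wt_wX] at this
    simp at this
    omega
  · exact sOp_depth_one hψ n l hl

end vals

/-! ### The exponential step -/

section final
open Polynomial

theorem mult_ext {α : Type} (μ : NC α →ₗ[ℚ] NC α →ₗ[ℚ] NC α) (g : NC α →ₗ[ℚ] ℝ)
    (h : ∀ u v : List α, g (μ (wd u) (wd v)) = g (wd u) * g (wd v)) (a b : NC α) :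
    g (μ a b) = g a * g b := by
  induction a using nc_induction with
  | hw u =>
    induction b using nc_induction with
    | hw v => exact h u v
    | zero => simp
    | add x y hx hy => rw [map_add, map_add, map_add, hx, hy, mul_add]
    | smul c x hx => rw [map_smul, map_smul, map_smul, hx, mul_smul_comm]
  | zero => simp
  | add x y hx hy => rw [map_add, LinearMap.add_apply, map_add, map_add, hx, hy, add_mul]
  | smul c x hx => rw [map_smul, LinearMap.smul_apply, map_smul, map_smul, hx, smul_mul_assoc]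

theorem Fl_of_zero {α : Type} {w : α → ℕ} {m : ℕ} {T : NC α →ₗ[ℚ] NC α} (h : Low w m T)
    (hm : 1 ≤ m) (r : ℝ) (φ : NC α →ₗ[ℚ] ℝ) {a : NC α} (ha : T a = 0) :
    Fl w T r φ a = C (φ a) := by
  ext k
  rw [coeff_Fl h hm, Polynomial.coeff_C]
  rcases k with _ | k
  · simp
  · rw [pow_succ T, Module.End.mul_apply, ha, map_zero, map_zero, mul_zero, if_neg (by omega)]

theorem Fl_of_sq_zero {α : Type} {w : α → ℕ} {m : ℕ} {T : NC α →ₗ[ℚ] NC α} (h : Low w m T)
    (hm : 1 ≤ m) (r : ℝ) (φ : NC α →ₗ[ℚ] ℝ) {a : NC α} (ha : T (T a) = 0) :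
    Fl w T r φ a = C (φ a) + Polynomial.monomial 1 (r * φ (T a)) := by
  ext k
  rw [coeff_Fl h hm, Polynomial.coeff_add, Polynomial.coeff_C, Polynomial.coeff_monomial]
  rcases k with _ | _ | k
  · simp
  · simp
  · rw [pow_succ T, pow_succ T, Module.End.mul_apply, Module.End.mul_apply, ha, map_zero, map_zero,
      mul_zero, if_neg (by omega), if_neg (by omega), add_zero]

theorem rat_smul_poly (q : ℚ) (p : ℝ[X]) : q • p = C (q : ℝ) * p := by
  ext k
  rw [Polynomial.coeff_smul, Polynomial.coeff_C_mul, Rat.smul_def]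

theorem expStep : ExpStep := by
  intro ψ m hψ hm hom' r Φ Λ hP
  have hom : Hg wX m ψ := by
    intro l hl
    rw [wt_wX]
    by_contra h
    exact hl (hom' l h)
  have hm2 : 2 ≤ m := by omega
  have hm1 : 1 ≤ m := by omega
  set φ : NC (Fin 2) →ₗ[ℚ] ℝ := linw Φ with hφ
  have hφw : ∀ l, φ (wd l) = Φ l := fun l => by rw [hφ, linw_wd]
  set F : NC (Fin 2) →ₗ[ℚ] ℝ[X] := Fl wX (TX hom) r φ with hFdef
  have hF : ∀ a, derivative (F a) = C r * F (TX hom a) := derivative_Fl (low_TX hom) hm1 r φ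
  have hFc : ∀ a, (F a).coeff 0 = φ a := by
    intro a; rw [hFdef, coeff_Fl (low_TX hom) hm1]; simp
  set x : ℝ := r * (cc ψ m : ℝ) with hx
  set L : ℕ → ℝ[X] := LX Λ m x with hL
  have hLc : ∀ n, (L n).coeff 0 = Λ n := by
    intro n; rw [hL, coeff_LX Λ hm1]; simp
  set T' : NC ℕ+ →ₗ[ℚ] NC ℕ+ := TY hm2 hom - cc ψ m • pW ^ m with hT'
  have h1 : ∀ b, TX hom (jA b) = jA (T' b) := by
    intro b
    rw [hT', LinearMap.sub_apply, map_sub, jA_TY, LinearMap.smul_apply, map_smul]
    abel
  have h2 : ∀ b, pW (T' b) = T' (pW b) := by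
    intro b
    have hc : pW ((pW ^ m) b) = (pW ^ m) (pW b) := by
      rw [← Module.End.mul_apply, ← Module.End.mul_apply, ← pow_succ, ← pow_succ']
    rw [hT', LinearMap.sub_apply, LinearMap.sub_apply, map_sub, pW_TY, LinearMap.smul_apply,
      LinearMap.smul_apply, map_smul, hc]
  set G : NC ℕ+ →ₗ[ℚ] ℝ[X] := SG F L with hG
  have hGd : ∀ a, derivative (G a) = C r * G (TY hm2 hom a) := by
    intro a
    induction a using nc_induction with
    | hw t =>
      rw [hG, derivative_SG hF h1 h2 t L]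
      have e1 : (fun n => derivative (L n)) =
          fun n => C x * (if n < m then 0 else L (n - m)) := by
        funext n; rw [hL]; exact derivative_LX Λ hm1 x n
      rw [e1, SG_smul', SG_shift, hT', LinearMap.sub_apply, map_sub, LinearMap.smul_apply, map_smul,
        rat_smul_poly, hx, map_mul]
      ring
    | zero => simp
    | add a b ha hb => rw [map_add, map_add, ha, hb, map_add, map_add, mul_add]
    | smul c a ha =>
      rw [map_smul G, map_smul (TY hm2 hom), map_smul G, Polynomial.derivative_smul, ha,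
        mul_smul_comm]
  -- multiplicativity
  have multF : ∀ a b, F (muX a b) = F a * F b := by
    apply mult_of_ode muX (TX hom) (TX_deriv hψ.1 hom) r F hF
    intro a b
    rw [hFc, hFc, hFc]
    apply mult_ext muX φ
    intro u v
    rw [map_muX, hφw, hφw, ← hP.sh]
    simp only [hφw]
  have hGc : ∀ t : List ℕ+, (G (wd t)).coeff 0 = stv Φ Λ t := by
    intro t
    rw [hG, SG_wd]
    have e := stG_map (Polynomial.constantCoeff (R := ℝ)) (fun l => F (wd l)) t L
    simp only [Polynomial.constantCoeff_apply] at e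
    rw [e, ← stG_eq_stv]
    congr 1
    · funext l; rw [hFc, hφw]
    · funext n; exact hLc n
  have multG : ∀ a b, G (muY a b) = G a * G b := by
    apply mult_of_ode muY (TY hm2 hom) (TY_deriv hψ hm2 hom) r G hGd
    intro a b
    have := mult_ext muY (((Polynomial.lcoeff ℝ 0).restrictScalars ℚ) ∘ₗ G) (by
      intro u v
      rw [map_muY]
      simp only [LinearMap.comp_apply, LinearMap.coe_restrictScalars, Polynomial.lcoeff_apply, hGc]
      exact hP.st u v) a b
    simpa only [LinearMap.comp_apply, LinearMap.coe_restrictScalars, Polynomial.lcoeff_apply]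
      using this
  -- values
  have hshort : ∀ l : List (Fin 2), TX hom (wd l) = 0 → (F (wd l)).eval 1 = Φ l := by
    intro l hl
    rw [hFdef, Fl_of_zero (low_TX hom) hm1 r φ hl, Polynomial.eval_C, hφw]
  have hlt : ∀ l : List (Fin 2), l.length < m → (F (wd l)).eval 1 = Φ l := by
    intro l hl
    apply hshort
    apply (low_TX hom).zero
    rw [wt_wX]; exact hl
  have hstv : ∀ t : List ℕ+, stv (fun l => (F (wd l)).eval 1) (fun n => (L n).eval 1) t =
      (G (wd t)).eval 1 := by
    intro t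
    rw [hG, SG_wd, ← stG_eq_stv]
    exact (stG_map (Polynomial.evalRingHom (1 : ℝ)) (fun l => F (wd l)) t L).symm
  refine ⟨fun l => (F (wd l)).eval 1, fun n => (L n).eval 1, ⟨?_, ?_, ?_, ?_, ?_, ?_, ?_⟩, hlt,
    ?_, ?_⟩
  · show (F (wd [])).eval 1 = 1
    rw [hlt [] (by simp; omega)]; exact hP.nil
  · show (F (wd [0])).eval 1 = 0
    rw [hlt [0] (by simp; omega)]; exact hP.x0
  · show (F (wd [1])).eval 1 = 0
    rw [hlt [1] (by simp; omega)]; exact hP.x1
  · intro u v
    have e := shE_map (Polynomial.evalRingHom (1 : ℝ)).toAddMonoidHom _ (fun w => F (wd w)) u v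
      le_rfl
    rw [← map_muX, multF] at e
    refine e.trans ?_
    exact map_mul (Polynomial.evalRingHom (1 : ℝ)) _ _
  · show (L 0).eval 1 = 1
    rw [hL, LX_lt Λ hm1 x (by omega), Polynomial.eval_C]; exact hP.L0
  · show (L 1).eval 1 = 0
    rw [hL, LX_lt Λ hm1 x (by omega), Polynomial.eval_C]; exact hP.L1
  · intro U V
    have e1 : (stv (fun l => (F (wd l)).eval 1) fun n => (L n).eval 1) =
        fun t => (G (wd t)).eval 1 := funext hstv
    rw [e1]
    have e := stE_map (Polynomial.evalRingHom (1 : ℝ)).toAddMonoidHom _ (fun w => G (wd w)) U V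
      le_rfl
    rw [← map_muY, multG] at e
    refine e.trans ?_
    exact map_mul (Polynomial.evalRingHom (1 : ℝ)) _ _
  · intro w hw
    have hT : TX hom (wd w) = cf ψ w • wd [] := TX_top hom hw
    have hTT : TX hom (TX hom (wd w)) = 0 := by
      rw [hT, map_smul, (low_TX hom).zero [] (by rw [wt_nil]; omega), smul_zero]
    show (F (wd w)).eval 1 = _
    rw [hFdef, Fl_of_sq_zero (low_TX hom) hm1 r φ hTT, Polynomial.eval_add, Polynomial.eval_C,
      Polynomial.eval_monomial, hT, map_smul, hφw, hφw, hP.nil, Rat.smul_def]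
    ring
  · intro n hn
    exact hshort _ (TX_depth_one hψ hom hn)

end final

end

end Pool.Agent.ECL
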